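import Mathlib

/-!
# Homomorphisms from the Witt algebra

The Witt algebra is the Lie algebra of derivations of the Laurent polynomial ring. A family of
elements `L m` of an associative algebra with `[L m, L n] = (n - m) L (m + n)` defines a
homomorphism.
-/

namespace Q2.WA

noncomputable section

open LaurentPolynomial

attribute [local instance 100] LieRing.ofAssociativeRing

variable (k : Type*) [Field k]

/-- The Witt algebra `k[t, t⁻¹]∂`: the Lie algebra of derivations of `k[t, t⁻¹]`. -/
abbrev Witt : Type _ := Derivation k (LaurentPolynomial k) (LaurentPolynomial k)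

variable {k}

lemma lau_induction {P : LaurentPolynomial k → Prop} (f : LaurentPolynomial k)
    (hadd : ∀ f g, P f → P g → P (f + g)) (hm : ∀ (c : k) (n : ℤ), P (c • T n)) : P f := by
  induction f using LaurentPolynomial.induction_on' with
  | add f g hf hg => exact hadd f g hf hg
  | C_mul_T n a =>
    have := hm a n
    rwa [LaurentPolynomial.smul_eq_C_mul] at this

/-- the derivative of Laurent polynomials, as a linear map -/
def lder : LaurentPolynomial k →ₗ[k] LaurentPolynomial k :=
  (AddMonoidAlgebra.basis ℤ k).constr k (fun n => (n : k) • T (n - 1))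

lemma lder_T (n : ℤ) : lder (T n : LaurentPolynomial k) = (n : k) • T (n - 1) := by
  have : (T n : LaurentPolynomial k) = AddMonoidAlgebra.basis ℤ k n := by
    rw [AddMonoidAlgebra.basis_apply]; rfl
  conv_lhs => rw [this]
  rw [lder, Module.Basis.constr_basis]

/-- a linear map given on monomials -/
def lmap {V : Type*} [AddCommGroup V] [Module k V] (L : ℤ → V) : LaurentPolynomial k →ₗ[k] V :=
  (AddMonoidAlgebra.basis ℤ k).constr k L

lemma lmap_T {V : Type*} [AddCommGroup V] [Module k V] (L : ℤ → V) (n : ℤ) :
    lmap L (T n : LaurentPolynomial k) = L n := by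
  have : (T n : LaurentPolynomial k) = AddMonoidAlgebra.basis ℤ k n := by
    rw [AddMonoidAlgebra.basis_apply]; rfl
  rw [this, lmap, Module.Basis.constr_basis]

lemma witt_T (D : Witt k) (n : ℤ) : D (T n) = (n : k) • (T (n - 1) * D (T 1)) := by
  induction n using Int.induction_on with
  | zero => simp
  | succ n ih =>
    rw [T_add, D.leibniz, ih, smul_eq_mul, smul_eq_mul, add_sub_cancel_right, mul_smul_comm,
      ← mul_assoc, ← T_add]
    have : (1 : ℤ) + (n - 1) = n := by ring
    rw [this]
    push_cast
    rw [add_smul, one_smul, add_comm]
  | pred n ih =>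
    have h1 : (T (-(n : ℤ)) : LaurentPolynomial k) = T (-(n : ℤ) - 1) * T 1 := by
      rw [← T_add, sub_add_cancel]
    have h2 := D.leibniz (T (-(n : ℤ) - 1)) (T 1)
    rw [← h1, ih, smul_eq_mul, smul_eq_mul] at h2
    have h3 : T 1 * D (T (-(n : ℤ) - 1)) =
        ((-(n : ℤ) - 1 : ℤ) : k) • (T (-(n : ℤ) - 1) * D (T 1)) := by
      have : T 1 * D (T (-(n : ℤ) - 1)) = ((-(n : ℤ) : ℤ) : k) • (T (-(n : ℤ) - 1) * D (T 1)) -
        T (-(n : ℤ) - 1) * D (T 1) := by
        rw [h2]; abel
      rw [this]
      push_cast
      rw [sub_smul, one_smul]
    have h4 : D (T (-(n : ℤ) - 1)) = T (-1) * (T 1 * D (T (-(n : ℤ) - 1))) := by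
      rw [← mul_assoc, ← T_add]
      simp
    rw [h4, h3, mul_smul_comm, ← mul_assoc, ← T_add]
    congr 3
    ring

lemma witt_apply (D : Witt k) (f : LaurentPolynomial k) : D f = lder f * D (T 1) := by
  induction f using lau_induction with
  | hadd f g hf hg => rw [map_add, map_add, hf, hg, add_mul]
  | hm c n => rw [D.map_smul, map_smul, lder_T, witt_T, smul_mul_assoc, smul_mul_assoc]

/-- the homomorphism of the Witt algebra given by `e_m ↦ L m` -/
def wittHom {A : Type*} [Ring A] [Algebra k A] (L : ℤ → A)
    (hL : ∀ m n, L m * L n - L n * L m = ((n - m : ℤ) : k) • L (m + n)) : Witt k →ₗ⁅k⁆ A :=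
  { toFun := fun D => lmap (fun n => L (n - 1)) (D (T 1))
    map_add' := by
      intro D E
      rw [Derivation.add_apply, map_add]
    map_smul' := by
      intro c D
      rw [Derivation.smul_apply, map_smul, RingHom.id_apply]
    map_lie' := by
      intro D E
      have key : ∀ f g : LaurentPolynomial k, lmap (fun n => L (n - 1)) (lder g * f - lder f * g) =
          lmap (fun n => L (n - 1)) f * lmap (fun n => L (n - 1)) g -
            lmap (fun n => L (n - 1)) g * lmap (fun n => L (n - 1)) f := by
        intro f g
        induction f using lau_induction with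
        | hadd f f' hf hf' =>
          have : lder g * (f + f') - lder (f + f') * g =
            (lder g * f - lder f * g) + (lder g * f' - lder f' * g) := by
            rw [map_add]; ring
          rw [this, map_add, hf, hf', map_add]
          noncomm_ring
        | hm c m =>
          induction g using lau_induction with
          | hadd g g' hg hg' =>
            have : lder (g + g') * (c • T m) - lder (c • T m) * (g + g') =
              (lder g * (c • T m) - lder (c • T m) * g) +
                (lder g' * (c • T m) - lder (c • T m) * g') := by
              rw [map_add (f := lder) (x := g)]; ring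
            rw [this, map_add, hg, hg', map_add (f := lmap _) (x := g)]
            noncomm_ring
          | hm d n =>
            have h1 : lder (d • T n) * (c • T m) - lder (c • T m) * (d • T n) =
                ((c * d) * ((n - m : ℤ) : k)) • (T (m + n - 1) : LaurentPolynomial k) := by
              rw [map_smul, map_smul, lder_T, lder_T]
              simp only [smul_mul_assoc, mul_smul_comm, smul_smul, ← T_add]
              have e1 : n - 1 + m = m + n - 1 := by ring
              have e2 : m - 1 + n = m + n - 1 := by ring
              rw [e1, e2]
              push_cast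
              module
            rw [h1, map_smul, lmap_T, map_smul, map_smul, lmap_T, lmap_T]
            have h2 := hL (m - 1) (n - 1)
            have e3 : m - 1 + (n - 1) = m + n - 1 - 1 := by ring
            have e4 : n - 1 - (m - 1) = n - m := by ring
            rw [e3, e4] at h2
            simp only [smul_mul_assoc, mul_smul_comm, smul_smul]
            rw [mul_smul, ← h2, smul_sub, mul_comm d c]
      change lmap (fun n => L (n - 1)) (⁅D, E⁆ (T 1)) = _
      rw [Derivation.commutator_apply, witt_apply D (E (T 1)), witt_apply E (D (T 1)), key,
        LieRing.of_associative_ring_bracket] }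

variable (k) in
/-- the derivation `∂` -/
def ldd : Derivation k (LaurentPolynomial k) (LaurentPolynomial k) :=
  Derivation.mk' lder (by
    intro f g
    induction f using lau_induction with
    | hadd f f' hf hf' =>
      rw [add_mul, map_add, hf, hf', map_add]
      simp only [smul_eq_mul]
      ring
    | hm c a =>
      induction g using lau_induction with
      | hadd g g' hg hg' =>
        rw [mul_add, map_add, hg, hg', map_add]
        simp only [smul_eq_mul]
        ring
      | hm d e =>
        rw [smul_mul_smul_comm, ← T_add, map_smul, map_smul, map_smul, lder_T, lder_T, lder_T,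
          smul_eq_mul, smul_eq_mul]
        simp only [smul_mul_assoc, mul_smul_comm, smul_smul, ← T_add]
        have e1 : a + (e - 1) = a + e - 1 := by ring
        have e2 : e + (a - 1) = a + e - 1 := by ring
        rw [e1, e2]
        push_cast
        module)

/-- the derivation `t^(m+1) ∂` -/
def witt (m : ℤ) : Witt k := (T (m + 1) : LaurentPolynomial k) • ldd k

lemma witt_T1 (m : ℤ) : (witt m : Witt k) (T 1) = T (m + 1) := by
  have h : ldd k (T 1) = 1 := by
    change lder (T 1) = 1
    rw [lder_T]
    simp
  rw [witt, Derivation.smul_apply, h, smul_eq_mul, mul_one]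

lemma wittHom_witt {A : Type*} [Ring A] [Algebra k A] (L : ℤ → A)
    (hL : ∀ m n, L m * L n - L n * L m = ((n - m : ℤ) : k) • L (m + n)) (m : ℤ) :
    wittHom L hL (witt m) = L m := by
  change lmap (fun n => L (n - 1)) (witt m (T 1)) = _
  rw [witt_T1, lmap_T, add_sub_cancel_right]

end

end Q2.WA
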