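import Pool.Agent.Q2.WA.ModS
import Pool.Agent.Q2.WA.Witt

/-!
# A cubic element of the annihilator
-/

namespace Q2.WA

noncomputable section

section diff

variable {A : Type*} [AddCommGroup A]

/-- third difference in the variables 2 and 3 -/
def D23 (h : ℤ → ℤ → ℤ → A) (a b c : ℤ) : A :=
  h a (b + 3) c - 3 • h a (b + 2) (c + 1) + 3 • h a (b + 1) (c + 2) - h a b (c + 3)

/-- third difference in the variables 1 and 3 -/
def D13 (h : ℤ → ℤ → ℤ → A) (a b c : ℤ) : A :=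
  h (a + 3) b c - 3 • h (a + 2) b (c + 1) + 3 • h (a + 1) b (c + 2) - h a b (c + 3)

/-- third difference in the variables 1 and 2 -/
def D12 (h : ℤ → ℤ → ℤ → A) (a b c : ℤ) : A :=
  h (a + 3) b c - 3 • h (a + 2) (b + 1) c + 3 • h (a + 1) (b + 2) c - h a (b + 3) c

/-- the cubic expression -/
def cub (h : ℤ → ℤ → ℤ → A) : A := D12 (D13 (D23 h)) 3 2 1

lemma D13_D23 (h : ℤ → ℤ → ℤ → A) : D13 (D23 h) = D23 (D13 h) := by
  funext a b c
  simp only [D13, D23]
  have e1 : c + 1 + 2 = c + 2 + 1 := by ring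
  have e2 : c + 1 + 3 = c + 3 + 1 := by ring
  have e3 : c + 2 + 3 = c + 3 + 2 := by ring
  rw [e1, e2, e3]
  abel

lemma D12_D13 (h : ℤ → ℤ → ℤ → A) : D12 (D13 h) = D13 (D12 h) := by
  funext a b c
  simp only [D13, D12]
  have e1 : a + 1 + 2 = a + 2 + 1 := by ring
  have e2 : a + 1 + 3 = a + 3 + 1 := by ring
  have e3 : a + 2 + 3 = a + 3 + 2 := by ring
  rw [e1, e2, e3]
  abel

lemma D12_D23 (h : ℤ → ℤ → ℤ → A) : D12 (D23 h) = D23 (D12 h) := by
  funext a b c
  simp only [D23, D12]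
  have e1 : b + 1 + 2 = b + 2 + 1 := by ring
  have e2 : b + 1 + 3 = b + 3 + 1 := by ring
  have e3 : b + 2 + 3 = b + 3 + 2 := by ring
  rw [e1, e2, e3]
  abel

lemma D12_zero : D12 (0 : ℤ → ℤ → ℤ → A) = 0 := by
  funext a b c
  simp [D12]

lemma D13_zero : D13 (0 : ℤ → ℤ → ℤ → A) = 0 := by
  funext a b c
  simp [D13]

lemma D23_zero : D23 (0 : ℤ → ℤ → ℤ → A) = 0 := by
  funext a b c
  simp [D23]

lemma cub_of_D23 {h : ℤ → ℤ → ℤ → A} (hh : D23 h = 0) : cub h = 0 := by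
  rw [cub, hh, D13_zero, D12_zero]
  rfl

lemma cub_of_D13 {h : ℤ → ℤ → ℤ → A} (hh : D13 h = 0) : cub h = 0 := by
  rw [cub, D13_D23, hh, D23_zero, D12_zero]
  rfl

lemma cub_of_D12 {h : ℤ → ℤ → ℤ → A} (hh : D12 h = 0) : cub h = 0 := by
  rw [cub, D12_D13, D12_D23, hh, D23_zero, D13_zero]
  rfl

lemma cub_add (h h' : ℤ → ℤ → ℤ → A) : cub (fun a b c => h a b c + h' a b c) = cub h + cub h' := by
  simp only [cub, D12, D13, D23, smul_add, smul_sub]
  abel

lemma cub_map {B : Type*} [AddCommGroup B] (φ : A →+ B) (h : ℤ → ℤ → ℤ → A) :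
    φ (cub h) = cub (fun a b c => φ (h a b c)) := by
  simp only [cub, D12, D13, D23, map_add, map_sub, map_nsmul]

end diff

/-- the sequences killed by the third difference -/
def Kd {A : Type*} [Ring A] (f : ℤ → ℤ → A) : Prop :=
  ∀ b c, f (b + 3) c - 3 • f (b + 2) (c + 1) + 3 • f (b + 1) (c + 2) - f b (c + 3) = 0

variable {k : Type*} [Field k]

namespace Two

variable {D : Type*} [Ring D] [Algebra k D] (W : Two k D) (b : k)

/-- the first summand of `L m` -/
def X1 (m : ℤ) : D := ((W.T1 ^ m : Dˣ) : D) * W.x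

lemma XX (p q M : ℤ) (h : p + q = M) : W.X1 p * W.X1 q =
    ((W.T1 ^ M : Dˣ) : D) * W.x * W.x + (q : k) • (((W.T1 ^ M : Dˣ) : D) * W.x) := by
  subst h
  have h1 := W.T1_zpow_x (k := k) q
  rw [sub_eq_iff_eq_add] at h1
  calc _ = ((W.T1 ^ p : Dˣ) : D) * (W.x * ((W.T1 ^ q : Dˣ) : D)) * W.x := by
        rw [X1, X1]; noncomm_ring
    _ = _ := by
      rw [h1, zpow_add, Units.val_mul, mul_add, add_mul, mul_smul_comm, smul_mul_assoc, add_comm]
      simp only [mul_assoc]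

lemma Kd_XX : Kd (fun p q => W.X1 p * W.X1 q) := by
  intro p q
  simp only
  rw [XX W (p + 3) q (p + q + 3) (by ring), XX W (p + 2) (q + 1) (p + q + 3) (by ring),
    XX W (p + 1) (q + 2) (p + q + 3) (by ring), XX W p (q + 3) (p + q + 3) (by ring)]
  push_cast
  module

lemma Kd_YY : Kd (fun p q => W.Y b p * W.Y b q) := by
  intro p q
  simp only
  rw [YY W b (p + 3) q (p + q + 3) (by ring), YY W b (p + 2) (q + 1) (p + q + 3) (by ring),
    YY W b (p + 1) (q + 2) (p + q + 3) (by ring), YY W b p (q + 3) (p + q + 3) (by ring)]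
  push_cast
  module

lemma XY (p q : ℤ) : W.X1 p * W.Y b q = W.Y b q * W.X1 p := by
  have c1 : Commute (((W.T1 ^ p : Dˣ) : D)) W.y := W.T1_zpow_y p
  have c2 : Commute (((W.T1 ^ p : Dˣ) : D)) (((W.T2 ^ q : Dˣ) : D)) := by
    have := W.TT.zpow_zpow p q
    exact congrArg Units.val this
  have c3 : Commute W.x W.y := W.xy
  have c4 : Commute W.x (((W.T2 ^ q : Dˣ) : D)) := (W.T2_zpow_x q).symm
  have c5 : ∀ z : D, Commute z (((q : k) * b) • (1 : D)) := by
    intro z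
    exact (Commute.one_right z).smul_right _
  have : Commute (W.X1 p) (W.Y b q) :=
    ((c1.sub_right (c5 _)).mul_right c2).mul_left ((c3.sub_right (c5 _)).mul_right c4)
  exact this

lemma cub_L : cub (fun p q r => W.L b p * W.L b q * W.L b r) = 0 := by
  have hL : ∀ p, W.L b p = W.X1 p + W.Y b p := fun p => rfl
  have hX := W.Kd_XX
  have hY := W.Kd_YY b
  have h23 : ∀ (g : ℤ → D) (f : ℤ → ℤ → D), Kd f → cub (fun p q r => g p * f q r) = 0 := by
    intro g f hf
    apply cub_of_D23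
    funext p q r
    simp only [D23]
    rw [← mul_smul_comm, ← mul_smul_comm, ← mul_sub, ← mul_add, ← mul_sub, hf, mul_zero]
    rfl
  have h12 : ∀ (g : ℤ → D) (f : ℤ → ℤ → D), Kd f → cub (fun p q r => f p q * g r) = 0 := by
    intro g f hf
    apply cub_of_D12
    funext p q r
    simp only [D12]
    rw [← smul_mul_assoc, ← smul_mul_assoc, ← sub_mul, ← add_mul, ← sub_mul, hf, zero_mul]
    rfl
  have h13 : ∀ (g : ℤ → D) (f : ℤ → ℤ → D), Kd f → cub (fun p q r => g q * f p r) = 0 := by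
    intro g f hf
    apply cub_of_D13
    funext p q r
    simp only [D13]
    rw [← mul_smul_comm, ← mul_smul_comm, ← mul_sub, ← mul_add, ← mul_sub, hf, mul_zero]
    rfl
  have hexp : (fun p q r => W.L b p * W.L b q * W.L b r) = fun p q r =>
      (((W.X1 p * (W.X1 q * W.X1 r) + W.X1 p * (W.Y b q * W.Y b r)) +
        (W.Y b p * (W.X1 q * W.X1 r) + W.Y b p * (W.Y b q * W.Y b r))) +
      ((W.X1 p * W.X1 q) * W.Y b r + (W.Y b p * W.Y b q) * W.X1 r)) +
        (W.Y b q * (W.X1 p * W.X1 r) + W.X1 q * (W.Y b p * W.Y b r)) := by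
    funext p q r
    rw [hL, hL, hL]
    have e1 : W.X1 p * W.Y b q * W.X1 r = W.Y b q * (W.X1 p * W.X1 r) := by
      rw [XY, mul_assoc]
    have e2 : W.Y b p * W.X1 q * W.Y b r = W.X1 q * (W.Y b p * W.Y b r) := by
      rw [← XY, mul_assoc]
    simp only [add_mul, mul_add, e1, e2]
    simp only [mul_assoc]
    abel
  rw [hexp, cub_add, cub_add, cub_add, cub_add, cub_add, cub_add, cub_add, h23 _ _ hX, h23 _ _ hY,
    h23 _ _ hX, h23 _ _ hY, h12 _ _ hX, h12 _ _ hY, h13 _ _ hX, h13 _ _ hY]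
  simp

end Two

end

end Q2.WA
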