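import Pool.Agent.Q2.WA.Cubic

/-!
# The cubic element is not zero

The Witt algebra acts on Laurent polynomials in three variables.
-/

namespace Q2.WA

noncomputable section

variable (k : Type*) [Field k]

/-- Laurent polynomials in three variables -/
abbrev V3 : Type _ := (ℤ × ℤ × ℤ) →₀ k

/-- `z_1^(m+1) ∂_1` -/
def o1 (m : ℤ) : Module.End k (V3 k) := Finsupp.linearCombination k
  (fun n : ℤ × ℤ × ℤ => (n.1 : k) • Finsupp.single (n.1 + m, n.2.1, n.2.2) 1)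

/-- `z_2^(m+1) ∂_2` -/
def o2 (m : ℤ) : Module.End k (V3 k) := Finsupp.linearCombination k
  (fun n : ℤ × ℤ × ℤ => (n.2.1 : k) • Finsupp.single (n.1, n.2.1 + m, n.2.2) 1)

/-- `z_3^(m+1) ∂_3` -/
def o3 (m : ℤ) : Module.End k (V3 k) := Finsupp.linearCombination k
  (fun n : ℤ × ℤ × ℤ => (n.2.2 : k) • Finsupp.single (n.1, n.2.1, n.2.2 + m) 1)

/-- the operators of the Witt algebra -/
def L3 (m : ℤ) : Module.End k (V3 k) := o1 k m + o2 k m + o3 k m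

lemma o1_single (m x y z : ℤ) : o1 k m (Finsupp.single (x, y, z) 1) =
    (x : k) • Finsupp.single (x + m, y, z) 1 := by
  rw [o1, Finsupp.linearCombination_single, one_smul]

lemma o2_single (m x y z : ℤ) : o2 k m (Finsupp.single (x, y, z) 1) =
    (y : k) • Finsupp.single (x, y + m, z) 1 := by
  rw [o2, Finsupp.linearCombination_single, one_smul]

lemma o3_single (m x y z : ℤ) : o3 k m (Finsupp.single (x, y, z) 1) =
    (z : k) • Finsupp.single (x, y, z + m) 1 := by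
  rw [o3, Finsupp.linearCombination_single, one_smul]

lemma L3_single (m x y z : ℤ) : L3 k m (Finsupp.single (x, y, z) 1) =
    (x : k) • Finsupp.single (x + m, y, z) 1 + (y : k) • Finsupp.single (x, y + m, z) 1 +
      (z : k) • Finsupp.single (x, y, z + m) 1 := by
  rw [L3, LinearMap.add_apply, LinearMap.add_apply, o1_single, o2_single, o3_single]

lemma L3_comm (m n : ℤ) : L3 k m * L3 k n - L3 k n * L3 k m = ((n - m : ℤ) : k) • L3 k (m + n) := by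
  refine (Finsupp.basisSingleOne (R := k) (ι := ℤ × ℤ × ℤ)).ext (fun e => ?_)
  obtain ⟨x, y, z⟩ := e
  rw [Finsupp.coe_basisSingleOne]
  simp only [LinearMap.sub_apply, Module.End.mul_apply, LinearMap.smul_apply, L3_single, map_add,
    map_smul, smul_add, smul_smul]
  have e1 : x + m + n = x + (m + n) := by ring
  have e2 : y + m + n = y + (m + n) := by ring
  have e3 : z + m + n = z + (m + n) := by ring
  have e4 : x + n + m = x + (m + n) := by ring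
  have e5 : y + n + m = y + (m + n) := by ring
  have e6 : z + n + m = z + (m + n) := by ring
  rw [e1, e2, e3, e4, e5, e6]
  push_cast
  module

/-- the coefficient of `z_1^10 z_2^6 z_3^2` in `e_p e_q e_r (z_1 z_2 z_3)` -/
def kap (p q r : ℤ) : ℤ :=
  (if p = 9 ∧ q = 5 ∧ r = 1 then 1 else 0) + (if p = 9 ∧ q = 1 ∧ r = 5 then 1 else 0) +
  (if p = 5 ∧ q = 9 ∧ r = 1 then 1 else 0) + (if p = 5 ∧ q = 1 ∧ r = 9 then 1 else 0) +
  (if p = 1 ∧ q = 9 ∧ r = 5 then 1 else 0) + (if p = 1 ∧ q = 5 ∧ r = 9 then 1 else 0)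

lemma coeff_L3 (p q r : ℤ) : (L3 k p * L3 k q * L3 k r) (Finsupp.single (1, 1, 1) 1) (10, 6, 2) =
    ((kap p q r : ℤ) : k) := by
  have h10 : ∀ a : ℤ, 1 + a = 10 ↔ a = 9 := by intro a; omega
  have h6 : ∀ a : ℤ, 1 + a = 6 ↔ a = 5 := by intro a; omega
  have h2 : ∀ a : ℤ, 1 + a = 2 ↔ a = 1 := by intro a; omega
  simp only [Module.End.mul_apply, L3_single, map_add, map_smul, smul_add, smul_smul,
    Finsupp.add_apply, Finsupp.smul_apply, Finsupp.single_apply, Prod.mk.injEq, kap, h10, h6, h2]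
  norm_num
  have c1 : (r = 9 ∧ q = 5 ∧ p = 1) ↔ (p = 1 ∧ q = 5 ∧ r = 9) :=
    ⟨fun ⟨a, b, c⟩ => ⟨c, b, a⟩, fun ⟨a, b, c⟩ => ⟨c, b, a⟩⟩
  have c2 : (r = 9 ∧ p = 5 ∧ q = 1) ↔ (p = 5 ∧ q = 1 ∧ r = 9) :=
    ⟨fun ⟨a, b, c⟩ => ⟨b, c, a⟩, fun ⟨a, b, c⟩ => ⟨c, a, b⟩⟩
  have c3 : (q = 9 ∧ r = 5 ∧ p = 1) ↔ (p = 1 ∧ q = 9 ∧ r = 5) :=
    ⟨fun ⟨a, b, c⟩ => ⟨c, a, b⟩, fun ⟨a, b, c⟩ => ⟨b, c, a⟩⟩
  have c4 : (p = 9 ∧ r = 5 ∧ q = 1) ↔ (p = 9 ∧ q = 1 ∧ r = 5) :=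
    ⟨fun ⟨a, b, c⟩ => ⟨a, c, b⟩, fun ⟨a, b, c⟩ => ⟨a, c, b⟩⟩
  have c5 : (q = 9 ∧ p = 5 ∧ r = 1) ↔ (p = 5 ∧ q = 9 ∧ r = 1) :=
    ⟨fun ⟨a, b, c⟩ => ⟨b, a, c⟩, fun ⟨a, b, c⟩ => ⟨b, a, c⟩⟩
  simp only [c1, c2, c3, c4, c5]
  ring

lemma cub_kap : cub kap = 1 := by decide

lemma cub_L3 : cub (fun p q r => L3 k p * L3 k q * L3 k r) ≠ 0 := by
  intro h
  let φ : Module.End k (V3 k) →+ k :=
    { toFun := fun f => f (Finsupp.single (1, 1, 1) 1) (10, 6, 2)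
      map_zero' := by simp
      map_add' := by intro f g; rw [LinearMap.add_apply, Finsupp.add_apply] }
  have h1 := cub_map φ (fun p q r => L3 k p * L3 k q * L3 k r)
  rw [h, map_zero] at h1
  have h2 : (fun p q r => φ (L3 k p * L3 k q * L3 k r)) =
      fun p q r => (Int.castAddHom k) (kap p q r) := by
    funext p q r
    exact coeff_L3 k p q r
  rw [h2, ← cub_map (Int.castAddHom k) kap, cub_kap] at h1
  simp at h1

end

end Q2.WA
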