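import Mathlib

/-!
# Weyl algebras and the localized Weyl algebra

* `Weyl k n` is the Weyl algebra `A_n = k[s_1, …, s_n, ∂_1, …, ∂_n]`.
* `LocWeyl k` is the localized first Weyl algebra `k[t, t⁻¹, ∂]`.

Both are defined by generators and relations. The algebra `Ã_{n+1}` of the problem is
`LocWeyl k ⊗[k] Weyl k n`.
-/

namespace Q2.WA

open FreeAlgebra

/-- The generators `s_i` and `∂_i` of the Weyl algebra `A_n`. -/
inductive WeylGen (n : ℕ) : Type
  | s (i : Fin n) : WeylGen n
  | d (i : Fin n) : WeylGen n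

/-- The relations of the Weyl algebra: the `s_i` commute with each other, the `∂_i` commute with
each other, and `∂_i s_j = s_j ∂_i + δ_ij`. -/
inductive WeylRel (k : Type*) [Field k] (n : ℕ) :
    FreeAlgebra k (WeylGen n) → FreeAlgebra k (WeylGen n) → Prop
  | ss (i j : Fin n) : WeylRel k n (ι k (.s i) * ι k (.s j)) (ι k (.s j) * ι k (.s i))
  | dd (i j : Fin n) : WeylRel k n (ι k (.d i) * ι k (.d j)) (ι k (.d j) * ι k (.d i))
  | ds (i j : Fin n) : WeylRel k n (ι k (.d i) * ι k (.s j))
      (ι k (.s j) * ι k (.d i) + if i = j then 1 else 0)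

/-- The `n`-th Weyl algebra `A_n` over `k`. -/
abbrev Weyl (k : Type*) [Field k] (n : ℕ) : Type _ := RingQuot (WeylRel k n)

/-- The generators `t`, `t⁻¹` and `∂` of the localized first Weyl algebra. -/
inductive LocGen : Type
  | t : LocGen
  | tinv : LocGen
  | d : LocGen

/-- The relations of the localized first Weyl algebra: `t` is invertible and `∂ t = t ∂ + 1`. -/
inductive LocRel (k : Type*) [Field k] : FreeAlgebra k LocGen → FreeAlgebra k LocGen → Prop
  | t_tinv : LocRel k (ι k .t * ι k .tinv) 1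
  | tinv_t : LocRel k (ι k .tinv * ι k .t) 1
  | dt : LocRel k (ι k .d * ι k .t) (ι k .t * ι k .d + 1)

/-- The localized first Weyl algebra `k[t, t⁻¹, ∂]`. -/
abbrev LocWeyl (k : Type*) [Field k] : Type _ := RingQuot (LocRel k)

end Q2.WA
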