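import Mathlib

/-!
# Weighted degrees on algebras with a basis of Weyl type

Let `A` be an algebra with a basis `b` indexed by a commutative monoid `E` such that
`b e * b f` is `b (e + f)` up to terms of lower weight. Then the weight defines a degree function
with the usual properties: the degree of a product is the sum of the degrees, the degree of a
commutator is smaller.
-/

namespace Q2.WA

open Submodule AddMonoidAlgebra

noncomputable section

set_option linter.unusedSectionVars false

variable {k : Type*} [Field k] {E A : Type*} [AddCommMonoid E] [Ring A] [Algebra k A]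

/-- the span of the basis elements of weight at most `c` -/
def LE (b : Module.Basis E k A) (l : E → ℤ) (c : ℤ) : Submodule k A :=
  span k (b '' {e | l e ≤ c})

lemma mem_LE {b : Module.Basis E k A} {l : E → ℤ} {c : ℤ} {x : A} :
    x ∈ LE b l c ↔ ∀ e, b.repr x e ≠ 0 → l e ≤ c := by
  rw [LE, Module.Basis.mem_span_image]
  constructor
  · intro h e he
    exact h (by simpa using he)
  · intro h e he
    exact h e (by simpa using he)

lemma LE_mono {b : Module.Basis E k A} {l : E → ℤ} {c d : ℤ} (h : c ≤ d) :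
    LE b l c ≤ LE b l d := by
  intro x hx
  rw [mem_LE] at hx ⊢
  exact fun e he => (hx e he).trans h

lemma basis_mem_LE {b : Module.Basis E k A} {l : E → ℤ} {c : ℤ} {e : E} (h : l e ≤ c) :
    b e ∈ LE b l c := subset_span ⟨e, h, rfl⟩

/-- the basis `b` is of Weyl type for the weight `l` -/
structure IsW (b : Module.Basis E k A) (l : E → ℤ) : Prop where
  add : ∀ e f, l (e + f) = l e + l f
  mul : ∀ e f, b e * b f - b (e + f) ∈ LE b l (l e + l f - 1)

/-- the component of weight `c`, as an element of the commutative monoid algebra -/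
def top (b : Module.Basis E k A) (l : E → ℤ) (c : ℤ) : A →ₗ[k] AddMonoidAlgebra k E :=
  b.constr k (fun e => if l e = c then single e 1 else 0)

lemma top_basis (b : Module.Basis E k A) (l : E → ℤ) (c : ℤ) (e : E) :
    top b l c (b e) = if l e = c then single e 1 else 0 := by
  rw [top, Module.Basis.constr_basis]

lemma top_coeff (b : Module.Basis E k A) (l : E → ℤ) (c : ℤ) (x : A) (e : E) :
    (top b l c x).coeff e = if l e = c then b.repr x e else 0 := by
  classical
  have hx : x ∈ span k (Set.range b) := by rw [b.span_eq]; trivial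
  induction hx using Submodule.span_induction with
  | mem x hx =>
    obtain ⟨f, rfl⟩ := hx
    rw [top_basis, b.repr_self]
    by_cases h : f = e
    · subst h
      by_cases h2 : l f = c <;> simp [h2]
    · by_cases h2 : l f = c <;> simp [h2, h]
  | zero => simp
  | add x y _ _ hx hy => simp only [map_add, coeff_add, Finsupp.add_apply, hx, hy]; split_ifs <;> simp
  | smul r x _ hx => simp only [map_smul, coeff_smul, Finsupp.smul_apply, hx]; split_ifs <;> simp

lemma mem_LE_sub_one {b : Module.Basis E k A} {l : E → ℤ} {c : ℤ} {x : A}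
    (hx : x ∈ LE b l c) : x ∈ LE b l (c - 1) ↔ top b l c x = 0 := by
  rw [mem_LE] at hx
  rw [mem_LE]
  constructor
  · intro h
    ext e
    rw [top_coeff]
    split_ifs with h1
    · by_contra h2
      have := h e h2
      omega
    · rfl
  · intro h e he
    have h1 := hx e he
    rcases lt_or_eq_of_le h1 with h2 | h2
    · omega
    · exfalso
      apply he
      have := congrArg (fun z => z.coeff e) h
      simp only [top_coeff, h2] at this
      simpa using this

lemma top_eq_zero {b : Module.Basis E k A} {l : E → ℤ} {c d : ℤ} {x : A}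
    (hx : x ∈ LE b l d) (h : d < c) : top b l c x = 0 :=
  (mem_LE_sub_one (LE_mono h.le hx)).1 (LE_mono (by omega) hx)

section mul

variable {b : Module.Basis E k A} {l : E → ℤ} (hb : IsW b l)

include hb

lemma mul_aux {c d : ℤ} {x y : A} (hx : x ∈ LE b l c) (hy : y ∈ LE b l d) :
    x * y ∈ LE b l (c + d) ∧ top b l (c + d) (x * y) = top b l c x * top b l d y := by
  rw [LE] at hx
  induction hx using Submodule.span_induction with
  | mem x hx =>
    obtain ⟨e, he, rfl⟩ := hx
    simp only [Set.mem_ofPred_eq] at he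
    rw [LE] at hy
    induction hy using Submodule.span_induction with
    | mem y hy =>
      obtain ⟨f, hf, rfl⟩ := hy
      simp only [Set.mem_ofPred_eq] at hf
      have h1 := hb.mul e f
      have h2 : b e * b f = b (e + f) + (b e * b f - b (e + f)) := by abel
      have h3 : b (e + f) ∈ LE b l (c + d) := basis_mem_LE (by rw [hb.add]; omega)
      constructor
      · rw [h2]
        exact add_mem h3 (LE_mono (by omega) h1)
      · rw [h2, map_add, top_eq_zero h1 (by omega), add_zero, top_basis, top_basis, top_basis,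
          hb.add]
        by_cases hc : l e = c
        · by_cases hd : l f = d
          · simp [hc, hd]
          · rw [if_neg (by omega), if_neg hd, mul_zero]
        · rw [if_neg (by omega), if_neg hc, zero_mul]
    | zero => simp
    | add x y _ _ hx hy =>
      rw [mul_add]
      exact ⟨add_mem hx.1 hy.1, by rw [map_add, map_add, hx.2, hy.2, mul_add]⟩
    | smul r x _ hx =>
      rw [mul_smul_comm]
      exact ⟨smul_mem _ _ hx.1, by rw [map_smul, map_smul, hx.2, mul_smul_comm]⟩
  | zero => simp
  | add x y _ _ hx hy =>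
    rw [add_mul]
    exact ⟨add_mem hx.1 hy.1, by rw [map_add, map_add, hx.2, hy.2, add_mul]⟩
  | smul r x _ hx =>
    rw [smul_mul_assoc]
    exact ⟨smul_mem _ _ hx.1, by rw [map_smul, map_smul, hx.2, smul_mul_assoc]⟩

lemma mul_mem_LE {c d : ℤ} {x y : A} (hx : x ∈ LE b l c) (hy : y ∈ LE b l d) :
    x * y ∈ LE b l (c + d) := (mul_aux hb hx hy).1

lemma comm_mem_LE {c d : ℤ} {x y : A} (hx : x ∈ LE b l c) (hy : y ∈ LE b l d) :
    x * y - y * x ∈ LE b l (c + d - 1) := by
  have h1 := mul_aux hb hx hy
  have h2 := mul_aux hb hy hx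
  rw [add_comm d c] at h2
  rw [mem_LE_sub_one (sub_mem h1.1 h2.1), map_sub, h1.2, h2.2, mul_comm, sub_self]

end mul

/-- the degree with respect to the weight `l` -/
def dg (b : Module.Basis E k A) (l : E → ℤ) (x : A) : ℤ := by
  classical
  exact if h : (b.repr x).support.Nonempty then (b.repr x).support.sup' h l else 0

lemma dg_le_iff {b : Module.Basis E k A} {l : E → ℤ} {c : ℤ} {x : A} (hx : x ≠ 0) :
    x ∈ LE b l c ↔ dg b l x ≤ c := by
  have h : (b.repr x).support.Nonempty := by
    rw [Finsupp.support_nonempty_iff]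
    simpa using hx
  rw [mem_LE, dg, dif_pos h, Finset.sup'_le_iff]
  simp

lemma dg_mem {b : Module.Basis E k A} {l : E → ℤ} {x : A} (hx : x ≠ 0) :
    x ∈ LE b l (dg b l x) := (dg_le_iff hx).2 le_rfl

lemma top_dg_ne_zero {b : Module.Basis E k A} {l : E → ℤ} {x : A} (hx : x ≠ 0) :
    top b l (dg b l x) x ≠ 0 := by
  intro h
  rw [← mem_LE_sub_one (dg_mem hx), dg_le_iff hx] at h
  omega

lemma dg_eq {b : Module.Basis E k A} {l : E → ℤ} {c : ℤ} {x : A} (hx : x ∈ LE b l c)
    (h : top b l c x ≠ 0) : x ≠ 0 ∧ dg b l x = c := by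
  have hx0 : x ≠ 0 := by
    rintro rfl
    exact h (map_zero _)
  refine ⟨hx0, le_antisymm ((dg_le_iff hx0).1 hx) ?_⟩
  by_contra hlt
  push Not at hlt
  exact h (top_eq_zero (dg_mem hx0) hlt)

section mul

variable {b : Module.Basis E k A} {l : E → ℤ} (hb : IsW b l) [UniqueSums E]

include hb

lemma dg_mul {x y : A} (hx : x ≠ 0) (hy : y ≠ 0) :
    x * y ≠ 0 ∧ dg b l (x * y) = dg b l x + dg b l y := by
  have h := mul_aux hb (dg_mem (b := b) (l := l) hx) (dg_mem (b := b) (l := l) hy)
  refine dg_eq h.1 ?_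
  rw [h.2]
  exact mul_ne_zero (top_dg_ne_zero hx) (top_dg_ne_zero hy)

lemma dg_comm {x y : A} (hx : x ≠ 0) (hy : y ≠ 0) :
    x * y - y * x ∈ LE b l (dg b l x + dg b l y - 1) :=
  comm_mem_LE hb (dg_mem hx) (dg_mem hy)

end mul

lemma dg_congr {b : Module.Basis E k A} {l : E → ℤ} {c : ℤ} {x y : A} (hx : x ≠ 0)
    (hc : dg b l x = c) (h : x - y ∈ LE b l (c - 1)) : y ≠ 0 ∧ dg b l y = c := by
  subst hc
  have h1 : top b l (dg b l x) (x - y) = 0 := top_eq_zero h (by omega)
  rw [map_sub, sub_eq_zero] at h1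
  have h2 : y = x - (x - y) := by abel
  refine dg_eq ?_ ?_
  · rw [h2]
    exact sub_mem (dg_mem hx) (LE_mono (by omega) h)
  · rw [← h1]
    exact top_dg_ne_zero hx

/-- **Main estimate**: for a family with `u α * u β = u (α + β) * u 0 + β₁ v (α + β)`
the degree of `u α` minus the degree of `u 0` is additive. -/
theorem dg_additive [CharZero k] [UniqueSums E] {b : Module.Basis E k A} {l : E → ℤ}
    (hb : IsW b l) (u v : ℤ × ℤ → A) (hu : ∀ a, u a ≠ 0)
    (huv : ∀ a c, u a * u c = u (a + c) * u 0 + ((c.1 : ℤ) : k) • v (a + c)) (a c : ℤ × ℤ) :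
    dg b l (u a) + dg b l (u c) = dg b l (u (a + c)) + dg b l (u 0) := by
  have hprod := dg_mul hb (hu a) (hu c)
  have hprod0 := dg_mul hb (hu (a + c)) (hu 0)
  by_cases h0 : a.1 + c.1 = 0
  · by_cases hc : c.1 = 0
    · have h1 := huv a c
      rw [hc] at h1
      simp only [Int.cast_zero, zero_smul, add_zero] at h1
      rw [← hprod.2, ← hprod0.2, h1]
    · -- `v (a + c)` is a multiple of the commutator of `u a` and `u c`
      have h1 := huv a c
      have h2 := huv c a
      rw [add_comm c a] at h2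
      have ha : a.1 = - c.1 := by omega
      have h3 : u a * u c - u c * u a = ((2 * c.1 : ℤ) : k) • v (a + c) := by
        rw [h1, h2, ha, add_sub_add_left_eq_sub, ← sub_smul]
        congr 1
        push_cast
        ring
      have hne : ((2 * c.1 : ℤ) : k) ≠ 0 := by
        rw [Int.cast_ne_zero]
        omega
      have h4 : v (a + c) ∈ LE b l (dg b l (u a) + dg b l (u c) - 1) := by
        have h5 : v (a + c) = (((2 * c.1 : ℤ) : k))⁻¹ • (u a * u c - u c * u a) := by
          rw [h3, smul_smul, inv_mul_cancel₀ hne, one_smul]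
        rw [h5]
        exact smul_mem _ _ (dg_comm hb (hu a) (hu c))
      have h6 : u a * u c - u (a + c) * u 0 ∈ LE b l (dg b l (u a) + dg b l (u c) - 1) := by
        rw [h1, add_sub_cancel_left]
        exact smul_mem _ _ h4
      have h7 := dg_congr hprod.1 hprod.2 h6
      rw [← h7.2, hprod0.2]
  · have h1 := huv a c
    have h2 := huv 0 (a + c)
    have h3 := huv (a + c) 0
    rw [zero_add] at h2
    rw [add_zero] at h3
    simp only [Prod.fst_zero, Int.cast_zero, zero_smul, add_zero] at h3
    have h4 : u 0 * u (a + c) - u (a + c) * u 0 = ((a.1 + c.1 : ℤ) : k) • v (a + c) := by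
      rw [h2, add_sub_cancel_left]
      simp
    have hne : ((a.1 + c.1 : ℤ) : k) ≠ 0 := by
      rw [Int.cast_ne_zero]
      exact h0
    have h5 : v (a + c) ∈ LE b l (dg b l (u (a + c)) + dg b l (u 0) - 1) := by
      have h6 : v (a + c) = (((a.1 + c.1 : ℤ) : k))⁻¹ • (u 0 * u (a + c) - u (a + c) * u 0) := by
        rw [h4, smul_smul, inv_mul_cancel₀ hne, one_smul]
      rw [h6, add_comm (dg b l (u (a + c)))]
      exact smul_mem _ _ (dg_comm hb (hu 0) (hu (a + c)))
    have h7 : u (a + c) * u 0 - u a * u c ∈ LE b l (dg b l (u (a + c)) + dg b l (u 0) - 1) := by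
      rw [h1, sub_add_cancel_left]
      exact neg_mem (smul_mem _ _ h5)
    have h8 := dg_congr hprod0.1 hprod0.2 h7
    rw [← hprod.2, h8.2]

lemma dg_nonneg {b : Module.Basis E k A} {l : E → ℤ} {x : A} (hx : x ≠ 0) (h : ∀ e, 0 ≤ l e) :
    0 ≤ dg b l x := by
  have hne : b.repr x ≠ 0 := by simpa using hx
  obtain ⟨e, he⟩ := Finsupp.ne_iff.1 hne
  exact (h e).trans ((mem_LE.1 (dg_mem (b := b) (l := l) hx)) e (by simpa using he))

lemma dg_add_nonneg {b : Module.Basis E k A} {l m : E → ℤ} {x : A} (hx : x ≠ 0)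
    (h : ∀ e, 0 ≤ l e + m e) : 0 ≤ dg b l x + dg b m x := by
  have hne : b.repr x ≠ 0 := by simpa using hx
  obtain ⟨e, he⟩ := Finsupp.ne_iff.1 hne
  have h1 := (mem_LE.1 (dg_mem (b := b) (l := l) hx)) e (by simpa using he)
  have h2 := (mem_LE.1 (dg_mem (b := b) (l := m) hx)) e (by simpa using he)
  have h3 := h e
  omega

/-- an algebra with a basis of Weyl type and three weights -/
structure Good (k A : Type*) [Field k] [Ring A] [Algebra k A] where
  E : Type
  [acm : AddCommMonoid E]
  [us : UniqueSums E]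
  b : Module.Basis E k A
  l : Fin 3 → E → ℤ
  isW : ∀ i, IsW b (l i)
  pos : ∀ e, 0 ≤ l 0 e
  pm : ∀ e, 0 ≤ l 1 e + l 2 e
  fin : ∀ c : Fin 3 → ℤ, {e | ∀ i, l i e ≤ c i}.Finite

attribute [instance] Good.acm Good.us

lemma eq_zero_of_forall_nonneg {C w : ℤ} (h : ∀ n : ℤ, 0 ≤ C + n * w) : w = 0 := by
  by_contra hw
  have h0 := h 0
  have h1 := h (-(C + 1) * w)
  have h2 : 1 ≤ w * w := by
    have : 0 < w * w := mul_self_pos.2 hw
    omega
  nlinarith

/-- In an algebra with three weights as in `Good` there is no family as in `dg_additive` which is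
linearly independent along all lines. -/
theorem Good.no_family {k A : Type*} [Field k] [CharZero k] [Ring A] [Algebra k A]
    (G : Good k A) (u v : ℤ × ℤ → A) (hu : ∀ a, u a ≠ 0)
    (huv : ∀ a c, u a * u c = u (a + c) * u 0 + ((c.1 : ℤ) : k) • v (a + c))
    (hlin : ∀ a : ℤ × ℤ, a ≠ 0 → LinearIndependent k (fun n : ℕ => u (n • a))) : False := by
  set d : Fin 3 → ℤ × ℤ → ℤ := fun i a => dg G.b (G.l i) (u a) with hd
  have hadd : ∀ i a c, d i a + d i c = d i (a + c) + d i 0 :=
    fun i a c => dg_additive (G.isW i) u v hu huv a c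
  let w : Fin 3 → (ℤ × ℤ →+ ℤ) := fun i => AddMonoidHom.mk' (fun a => d i a - d i 0) (by
    intro a c
    have := hadd i a c
    omega)
  have hw : ∀ i a, d i a = d i 0 + w i a := by
    intro i a
    simp only [w, AddMonoidHom.mk'_apply]
    ring
  have hw0 : ∀ a, w 0 a = 0 := by
    intro a
    refine eq_zero_of_forall_nonneg (C := d 0 0) (fun n => ?_)
    have h1 := hw 0 (n • a)
    rw [map_zsmul, smul_eq_mul] at h1
    rw [← h1]
    exact dg_nonneg (hu _) G.pos
  have hw12 : ∀ a, w 1 a + w 2 a = 0 := by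
    intro a
    refine eq_zero_of_forall_nonneg (C := d 1 0 + d 2 0) (fun n => ?_)
    have h1 := hw 1 (n • a)
    have h2 := hw 2 (n • a)
    rw [map_zsmul, smul_eq_mul] at h1 h2
    have h3 : 0 ≤ d 1 (n • a) + d 2 (n • a) := dg_add_nonneg (hu _) G.pm
    rw [h1, h2] at h3
    linarith
  obtain ⟨a, ha, hwa⟩ : ∃ a : ℤ × ℤ, a ≠ 0 ∧ w 1 a = 0 := by
    by_cases h : w 1 (1, 0) = 0
    · exact ⟨(1, 0), by simp, h⟩
    · refine ⟨(w 1 (0, 1), - w 1 (1, 0)), ?_, ?_⟩
      · intro h2
        rw [Prod.ext_iff] at h2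
        exact h (by simpa using h2.2)
      · have h3 : ((w 1 (0, 1), - w 1 (1, 0)) : ℤ × ℤ) =
            (w 1 (0, 1)) • ((1, 0) : ℤ × ℤ) + (- w 1 (1, 0)) • ((0, 1) : ℤ × ℤ) := by
          ext <;> simp
        rw [h3, map_add, map_zsmul, map_zsmul, smul_eq_mul, smul_eq_mul]
        ring
  have hda : ∀ (i : Fin 3) (n : ℕ), d i (n • a) = d i 0 := by
    intro i n
    rw [hw i, map_nsmul]
    have : w i a = 0 := by
      fin_cases i
      · exact hw0 a
      · exact hwa
      · have := hw12 a
        simp only [hwa, zero_add] at this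
        exact this
    rw [this]
    simp
  let S : Set G.E := {e | ∀ i, G.l i e ≤ d i 0}
  have hS : S.Finite := G.fin _
  have hmem : ∀ n : ℕ, u (n • a) ∈ span k (G.b '' S) := by
    intro n
    rw [Module.Basis.mem_span_image]
    intro e he i
    have h1 := (mem_LE.1 (dg_mem (b := G.b) (l := G.l i) (hu (n • a)))) e (by simpa using he)
    have h2 := hda i n
    simp only [hd] at h2
    rw [h2] at h1
    exact h1
  have hfin : Finite (G.b '' S : Set A) := (hS.image _).to_subtype
  have := LinearIndependent.finite_of_le_span_finite (fun n : ℕ => u (n • a)) (hlin a ha)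
    (G.b '' S) (by
      rintro _ ⟨n, rfl⟩
      exact hmem n)
  exact not_finite ℕ

end

end Q2.WA
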