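import Pool.Agent.Q2.WA.WeylB
import Pool.Agent.Q2.WA.Cubic2

/-!
# Two-point primitive ideals are not kernels of maps to localized Weyl algebras
-/

namespace Q2.WA

noncomputable section

open TensorProduct

lemma cub_hom {R A : Type*} [Ring R] [Ring A] (φ : R →+* A) (r : ℤ → R) (s : ℤ → A)
    (h : ∀ m, φ (r m) = s m) :
    φ (cub (fun a b c => r a * r b * r c)) = cub (fun a b c => s a * s b * s c) := by
  have h1 := cub_map (φ : R →+ A) (fun a b c => r a * r b * r c)
  have h2 : (fun a b c => (φ : R →+ A) (r a * r b * r c)) = fun a b c => s a * s b * s c := by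
    funext a b c
    rw [← h, ← h, ← h, ← map_mul, ← map_mul]
    rfl
  rw [h2] at h1
  exact h1

lemma two_ne {k : Type*} [Field k] [CharZero k] : (2 : k) ≠ 0 ∧ (2 : k) ≠ 1 := by
  constructor
  · norm_num
  · norm_num

attribute [local instance 100] LieRing.ofAssociativeRing

universe u

variable {k : Type u} [Field k] [CharZero k]

/-- transfer of the family `U` along a homomorphism with the same kernel -/
theorem no_hom {D R A : Type*} [Ring D] [Algebra k D] [Ring R] [Algebra k R] [Ring A]
    [Algebra k A] (G : Good k A) (W : Two k D) (hx : W.x ≠ 0) {b : k} (hb : b ≠ 0) (hb1 : b ≠ 1)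
    (Φ : R →ₐ[k] D) (hΦ : ∀ m, W.L b m ∈ Φ.range) (φ : R →ₐ[k] A)
    (hker : ∀ r, φ r = 0 ↔ Φ r = 0) : False := by
  have hU : ∀ a, W.U a ∈ Φ.range := fun a => W.mem9 hΦ hb hb1 a
  have hV : ∀ a, W.V a ∈ Φ.range := fun a => W.V_mem hU a
  choose u hu using hU
  choose v hv using hV
  have hu' : ∀ a, Φ (u a) = W.U a := hu
  have hv' : ∀ a, Φ (v a) = W.V a := hv
  refine G.no_family (fun a => φ (u a)) (fun a => φ (v a)) ?_ ?_ ?_
  · intro a h
    rw [hker, hu'] at h
    exact W.U_ne_zero hx a h
  · intro a c
    have h : φ (u a * u c - (u (a + c) * u 0 + ((c.1 : ℤ) : k) • v (a + c))) = 0 := by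
      rw [hker, map_sub, map_add, map_mul, map_mul, map_smul, hu', hu', hu', hu', hv', W.U_mul,
        sub_self]
    rw [map_sub, map_add, map_mul, map_mul, map_smul, sub_eq_zero] at h
    exact h
  · intro a ha
    have hlin := W.U_linearIndependent hx a ha
    rw [linearIndependent_iff'] at hlin ⊢
    intro s g hg i hi
    apply hlin s g _ i hi
    have h1 : φ (∑ i ∈ s, g i • u (i • a)) = 0 := by
      rw [map_sum, ← hg]
      exact Finset.sum_congr rfl (fun j _ => map_smul _ _ _)
    rw [hker, map_sum] at h1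
    rw [← h1]
    exact Finset.sum_congr rfl (fun j _ => by rw [map_smul, hu'])

variable {g : Type u} [LieRing g] [LieAlgebra k g] (π : g →ₗ⁅k⁆ Witt k)

/-- the representation of the enveloping algebra on the two-point module -/
def rep : UniversalEnvelopingAlgebra k g →ₐ[k] Module.End k (Pol2 k) :=
  UniversalEnvelopingAlgebra.lift k ((wittHom ((W2 k).L 2) ((W2 k).L_comm 2)).comp π)

/-- the representation on Laurent polynomials in three variables -/
def rep3 : UniversalEnvelopingAlgebra k g →ₐ[k] Module.End k (V3 k) :=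
  UniversalEnvelopingAlgebra.lift k ((wittHom (L3 k) (L3_comm k)).comp π)

/-- the homomorphism of enveloping algebras induced by `π` -/
def env : UniversalEnvelopingAlgebra k g →ₐ[k] UniversalEnvelopingAlgebra k (Witt k) :=
  UniversalEnvelopingAlgebra.lift k ((UniversalEnvelopingAlgebra.ι k).comp π)

omit [CharZero k] in
lemma lift_env {A : Type*} [Ring A] [Algebra k A] (f : Witt k →ₗ⁅k⁆ A) :
    (UniversalEnvelopingAlgebra.lift k f).comp (env π) =
      UniversalEnvelopingAlgebra.lift k (f.comp π) := by
  apply UniversalEnvelopingAlgebra.hom_ext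
  ext x : 1
  simp only [LieHom.comp_apply, AlgHom.coe_toLieHom, AlgHom.comp_apply, env,
    UniversalEnvelopingAlgebra.lift_ι_apply]

omit [CharZero k] in
lemma lift_env_apply {A : Type*} [Ring A] [Algebra k A] (f : Witt k →ₗ⁅k⁆ A)
    (r : UniversalEnvelopingAlgebra k g) (hr : env π r = 0) :
    UniversalEnvelopingAlgebra.lift k (f.comp π) r = 0 := by
  rw [← lift_env, AlgHom.comp_apply, hr, map_zero]

variable {π} (hπ : Function.Surjective π)

include hπ

omit [CharZero k] in
lemma exists_gen (m : ℤ) : ∃ r : UniversalEnvelopingAlgebra k g,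
    rep π r = (W2 k).L 2 m ∧ rep3 π r = L3 k m := by
  obtain ⟨x, hx⟩ := hπ (witt m)
  refine ⟨UniversalEnvelopingAlgebra.ι k x, ?_, ?_⟩
  · rw [rep, UniversalEnvelopingAlgebra.lift_ι_apply, LieHom.comp_apply, hx, wittHom_witt]
  · rw [rep3, UniversalEnvelopingAlgebra.lift_ι_apply, LieHom.comp_apply, hx, wittHom_witt]

lemma exists_ne_zero : ∃ r : UniversalEnvelopingAlgebra k g, env π r ≠ 0 ∧ rep π r = 0 := by
  choose r hr hr3 using fun m => exists_gen (k := k) hπ m
  have h3 := cub_hom (rep3 π).toRingHom r (L3 k) hr3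
  have h4 := cub_hom (rep π).toRingHom r ((W2 k).L 2) hr
  refine ⟨_, ?_, h4.trans ((W2 k).cub_L 2)⟩
  intro h
  have h5 : rep3 π (cub (fun a b c => r a * r b * r c)) = 0 := lift_env_apply π _ _ h
  exact cub_L3 k (h3.symm.trans h5)

/-- the annihilator of the two-point module -/
theorem main : ∃ (M : Type u) (_ : AddCommGroup M) (_ : Module (UniversalEnvelopingAlgebra k g) M),
    IsSimpleModule (UniversalEnvelopingAlgebra k g) M ∧
    RingHom.ker (env π) < Module.annihilator (UniversalEnvelopingAlgebra k g) M ∧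
    ∀ (n : ℕ) (φ : UniversalEnvelopingAlgebra k g →ₐ[k] LocWeyl k ⊗[k] Weyl k n),
      RingHom.ker φ ≠ Module.annihilator (UniversalEnvelopingAlgebra k g) M := by
  let inst : Module (UniversalEnvelopingAlgebra k g) (Pol2 k) :=
    Module.compHom (Pol2 k) (rep π).toRingHom
  have hsmul : ∀ (r : UniversalEnvelopingAlgebra k g) (f : Pol2 k), r • f = rep π r f :=
    fun r f => rfl
  have hann : ∀ r : UniversalEnvelopingAlgebra k g,
      r ∈ Module.annihilator (UniversalEnvelopingAlgebra k g) (Pol2 k) ↔ rep π r = 0 := by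
    intro r
    rw [Module.mem_annihilator]
    constructor
    · intro h
      apply LinearMap.ext
      intro f
      rw [← hsmul, h, LinearMap.zero_apply]
    · intro h f
      rw [hsmul, h, LinearMap.zero_apply]
  refine ⟨Pol2 k, inferInstance, inst, ?_, ?_, ?_⟩
  · rw [isSimpleModule_iff]
    refine { toNontrivial := ?_, eq_bot_or_eq_top := ?_ }
    · refine ⟨⊥, ⊤, ?_⟩
      intro h
      have h1 : (1 : Pol2 k) ∈ (⊤ : Submodule (UniversalEnvelopingAlgebra k g) (Pol2 k)) := trivial
      rw [← h, Submodule.mem_bot] at h1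
      exact one_ne_zero h1
    · intro N
      by_cases hN : N = ⊥
      · exact Or.inl hN
      right
      let N' : Submodule k (Pol2 k) :=
        { carrier := N
          add_mem' := N.add_mem
          zero_mem' := N.zero_mem
          smul_mem' := by
            intro c f hf
            have h1 : c • f = (algebraMap k (UniversalEnvelopingAlgebra k g) c) • f := by
              rw [hsmul, AlgHom.commutes, Module.algebraMap_end_apply]
            rw [h1]
            exact N.smul_mem _ hf }
      have hmem : ∀ f, f ∈ N' ↔ f ∈ N := fun f => Iff.rfl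
      have hL : ∀ m, ∀ f ∈ N', (W2 k).L 2 m f ∈ N' := by
        intro m f hf
        obtain ⟨r, hr, -⟩ := exists_gen (k := k) hπ m
        rw [hmem, ← hr, ← hsmul]
        exact N.smul_mem _ hf
      have h0 : N' ≠ ⊥ := by
        intro h
        apply hN
        rw [eq_bot_iff]
        intro f hf
        have h1 : f ∈ N' := hf
        rw [h, Submodule.mem_bot] at h1
        rw [h1]
        exact Submodule.zero_mem _
      have htop := eq_top_of_ne_bot hL two_ne.1 two_ne.2 h0
      rw [eq_top_iff]
      intro f _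
      have h1 : f ∈ N' := by rw [htop]; trivial
      exact h1
  · obtain ⟨r, hr, hr0⟩ := exists_ne_zero (k := k) hπ
    rw [lt_iff_le_not_ge]
    constructor
    · intro z hz
      rw [RingHom.mem_ker] at hz
      rw [hann]
      exact lift_env_apply π _ _ hz
    · intro h
      have h1 := h ((hann r).2 hr0)
      rw [RingHom.mem_ker] at h1
      exact hr h1
  · intro n φ hφ
    refine no_hom (locWeylGood k n) (W2 k) (W2_x_ne k) two_ne.1 two_ne.2 (rep π) ?_ φ ?_
    · intro m
      obtain ⟨r, hr, -⟩ := exists_gen (k := k) hπ m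
      exact ⟨r, hr⟩
    · intro r
      rw [← hann, ← hφ, RingHom.mem_ker]

end

end Q2.WA
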