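import Pool.Agent.Q2.WA.TwoPtC

/-!
# The two-point module

The module is `k[x, y]`, realized as `k[y][x]`. The unit `T1` acts as the shift `x ↦ x - 1` and
`T2` acts as minus the shift `y ↦ y - 1`.
-/

namespace Q2.WA

noncomputable section

open Polynomial

variable (k : Type*) [Field k]

/-- polynomials in two variables: the outer variable is `x`, the inner variable is `y` -/
abbrev Pol2 : Type _ := Polynomial (Polynomial k)

/-- `x ↦ x - 1` -/
def a1 : Pol2 k ≃ₐ[k] Pol2 k := (taylorEquiv (-1 : k[X])).restrictScalars k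

/-- `y ↦ y - 1` -/
def a2 : Pol2 k ≃ₐ[k] Pol2 k := Polynomial.mapAlgEquiv (taylorEquiv (-1 : k))

/-- the unit `T1` -/
def t1 : (Module.End k (Pol2 k))ˣ :=
  LinearMap.GeneralLinearGroup.ofLinearEquiv (a1 k).toLinearEquiv

/-- the unit `T2` -/
def t2 : (Module.End k (Pol2 k))ˣ where
  val := -(a2 k).toLinearMap
  inv := -(a2 k).symm.toLinearMap
  val_inv := by
    apply LinearMap.ext
    intro f
    simp
  inv_val := by
    apply LinearMap.ext
    intro f
    simp

lemma t1_apply (f : Pol2 k) : (t1 k : Module.End k (Pol2 k)) f = a1 k f := rfl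

lemma t2_apply (f : Pol2 k) : (t2 k : Module.End k (Pol2 k)) f = - a2 k f := rfl

lemma a1_X : a1 k X = X - 1 := by
  change taylor (-1 : k[X]) X = _
  rw [taylor_X, C_neg, C_1, sub_eq_add_neg]

lemma a1_CX : a1 k (C X) = C X := by
  change taylor (-1 : k[X]) (C X) = _
  rw [taylor_C]

lemma a2_X : a2 k X = X := by
  simp [a2]

lemma a2_C (p : k[X]) : a2 k (C p) = C (taylor (-1) p) := by
  simp [a2]
  rfl

lemma a2_CX : a2 k (C X) = C X - 1 := by
  rw [a2_C, taylor_X, C_neg, C_1, ← sub_eq_add_neg, C_sub, C_1]

lemma a12 (f : Pol2 k) : a1 k (a2 k f) = a2 k (a1 k f) := by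
  have : ((a1 k).toAlgHom.comp (a2 k).toAlgHom).toRingHom =
      ((a2 k).toAlgHom.comp (a1 k).toAlgHom).toRingHom := by
    apply Polynomial.ringHom_ext
    · intro p
      change a1 k (a2 k (C p)) = a2 k (a1 k (C p))
      have h : ∀ q : k[X], a1 k (C q) = C q := fun q => taylor_C _ _
      rw [h, a2_C, h]
    · change a1 k (a2 k X) = a2 k (a1 k X)
      rw [a2_X, a1_X, map_sub, a2_X, map_one]
  exact congrArg (fun g => g f) this

/-- the two-point module -/
def W2 : Two k (Module.End k (Pol2 k)) where
  x := LinearMap.mulLeft k X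
  y := LinearMap.mulLeft k (C X)
  T1 := t1 k
  T2 := t2 k
  xy := by
    apply LinearMap.ext
    intro f
    simp only [Module.End.mul_apply, LinearMap.mulLeft_apply]
    ring
  TT := by
    apply Units.ext
    apply LinearMap.ext
    intro f
    rw [Units.val_mul, Units.val_mul, Module.End.mul_apply, Module.End.mul_apply, t1_apply,
      t2_apply, t1_apply, t2_apply, map_neg, a12]
  T1x := by
    apply LinearMap.ext
    intro f
    simp only [Module.End.mul_apply, LinearMap.sub_apply, LinearMap.mulLeft_apply, t1_apply,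
      map_mul, a1_X]
    ring
  T1y := by
    apply LinearMap.ext
    intro f
    simp only [Module.End.mul_apply, LinearMap.mulLeft_apply, t1_apply, map_mul, a1_CX]
  T2x := by
    apply LinearMap.ext
    intro f
    simp only [Module.End.mul_apply, LinearMap.mulLeft_apply, t2_apply, map_mul, a2_X]
    ring
  T2y := by
    apply LinearMap.ext
    intro f
    simp only [Module.End.mul_apply, LinearMap.sub_apply, LinearMap.mulLeft_apply, t2_apply,
      map_mul, a2_CX]
    ring

lemma W2_x_ne : (W2 k).x ≠ 0 := by
  intro h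
  have := congrArg (fun f => f (1 : Pol2 k)) h
  simp [W2] at this

/-! ### separating the two characters -/

section sep

variable {k} {M : Type*} [AddCommGroup M] [Module k M]

/-- the shift on sequences -/
def sh : Module.End k (ℤ → M) := LinearMap.funLeft k M (fun m => m + 1)

lemma sh_apply (h : ℤ → M) (m : ℤ) : sh (k := k) h m = h (m + 1) := rfl

lemma aeval_sh_mem (N : Submodule k M) (p : k[X]) (h : ℤ → M) (hN : ∀ m, h m ∈ N) (m : ℤ) :
    aeval (sh (k := k)) p h m ∈ N := by
  induction p using Polynomial.induction_on' generalizing h m with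
  | add p q hp hq =>
    rw [map_add, LinearMap.add_apply, Pi.add_apply]
    exact N.add_mem (hp h hN m) (hq h hN m)
  | monomial n a =>
    rw [aeval_monomial, Module.End.mul_apply, Module.algebraMap_end_apply, Pi.smul_apply]
    apply N.smul_mem
    induction n generalizing h m with
    | zero => simpa using hN m
    | succ n ih =>
      rw [pow_succ, Module.End.mul_apply]
      exact ih (sh (k := k) h) (fun m => hN (m + 1)) m

lemma sep [CharZero k] (N : Submodule k M) {P R : ℤ → M} {d e : ℕ}
    (hP : aeval (sh (k := k)) ((X - 1 : k[X]) ^ d) P = 0)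
    (hR : aeval (sh (k := k)) ((X + 1 : k[X]) ^ e) R = 0) (hPR : ∀ m, P m + R m ∈ N) (m : ℤ) :
    P m ∈ N := by
  have hcop : IsCoprime ((X - 1 : k[X]) ^ d) ((X + 1 : k[X]) ^ e) := by
    apply IsCoprime.pow
    refine ⟨-C (1 / 2 : k), C (1 / 2 : k), ?_⟩
    have : C (1 / 2 : k) * 2 = 1 := by
      rw [← C_ofNat, ← C_mul]
      norm_num
    linear_combination this
  obtain ⟨u, v, huv⟩ := hcop
  have h1 : P = aeval (sh (k := k)) (v * (X + 1) ^ e) (P + R) := by
    rw [map_add, map_mul (aeval _) v, Module.End.mul_apply, Module.End.mul_apply, hR, map_zero,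
      add_zero, ← Module.End.mul_apply, ← map_mul]
    have h2 : v * (X + 1) ^ e = 1 - u * (X - 1) ^ d := by linear_combination huv
    rw [h2, map_sub, map_one, LinearMap.sub_apply, map_mul, Module.End.mul_apply, hP, map_zero,
      sub_zero, Module.End.one_apply]
  rw [h1]
  exact aeval_sh_mem N _ _ hPR m

/-- sequences `m ↦ T ^ m g` -/
lemma sh_sub_pow (T : (Module.End k M)ˣ) (c : k) (n : ℕ) (g : M) (m : ℤ) :
    aeval (sh (k := k)) ((X - C c : k[X]) ^ n) (fun m => ((T ^ m : (Module.End k M)ˣ) :
      Module.End k M) g) m = ((T ^ m : (Module.End k M)ˣ) : Module.End k M)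
        ((((T : Module.End k M) - c • 1) ^ n) g) := by
  induction n generalizing g m with
  | zero => simp
  | succ n ih =>
    rw [pow_succ, map_mul, Module.End.mul_apply]
    have h1 : aeval (sh (k := k)) (X - C c : k[X]) (fun m => ((T ^ m : (Module.End k M)ˣ) :
      Module.End k M) g) = fun m => ((T ^ m : (Module.End k M)ˣ) : Module.End k M)
        (((T : Module.End k M) - c • 1) g) := by
      funext m
      rw [map_sub, aeval_X, aeval_C, LinearMap.sub_apply, Pi.sub_apply, sh_apply, zpow_add_one,
        Units.val_mul, Module.End.mul_apply, Module.algebraMap_end_apply, Pi.smul_apply,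
        LinearMap.sub_apply, map_sub, LinearMap.smul_apply, Module.End.one_apply, map_smul]
    rw [h1, ih, pow_succ, Module.End.mul_apply]

/-- sequences `m ↦ m h(m)` -/
lemma sh_mul (c : k) (n : ℕ) (h : ℤ → M) (hh : aeval (sh (k := k)) ((X - C c : k[X]) ^ n) h = 0) :
    aeval (sh (k := k)) ((X - C c : k[X]) ^ (n + 1)) (fun m => ((m : ℤ) : k) • h m) = 0 := by
  induction n generalizing h with
  | zero =>
    simp only [pow_zero, map_one, Module.End.one_apply] at hh
    subst hh
    have : (fun m : ℤ => ((m : ℤ) : k) • (0 : ℤ → M) m) = 0 := by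
      funext m
      simp
    rw [this, map_zero]
  | succ n ih =>
    rw [pow_succ, map_mul, Module.End.mul_apply]
    have h1 : aeval (sh (k := k)) (X - C c : k[X]) (fun m => ((m : ℤ) : k) • h m) =
        (fun m => ((m : ℤ) : k) • (aeval (sh (k := k)) (X - C c : k[X]) h) m) + sh (k := k) h := by
      funext m
      rw [map_sub, aeval_X, aeval_C, LinearMap.sub_apply, Pi.sub_apply, sh_apply,
        Module.algebraMap_end_apply, Pi.smul_apply, Pi.add_apply, LinearMap.sub_apply,
        Pi.sub_apply, sh_apply, Module.algebraMap_end_apply, Pi.smul_apply]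
      push_cast
      module
    have h2 : aeval (sh (k := k)) ((X - C c : k[X]) ^ n)
        (aeval (sh (k := k)) (X - C c : k[X]) h) = 0 := by
      rw [← Module.End.mul_apply, ← map_mul, ← pow_succ]
      exact hh
    have h3 : aeval (sh (k := k)) ((X - C c : k[X]) ^ (n + 1)) (sh (k := k) h) = 0 := by
      have : sh (k := k) h = aeval (sh (k := k)) (X : k[X]) h := by rw [aeval_X]
      rw [this, ← Module.End.mul_apply, ← map_mul, mul_comm, map_mul, Module.End.mul_apply, hh,
        map_zero]
    rw [h1, map_add, ih _ h2, h3, add_zero]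

end sep

/-! ### nilpotency of differences -/

section nil

variable {k}

lemma taylor_sub_degree {R : Type*} [CommRing R] [IsDomain R] {n : ℕ} {g : R[X]}
    (hg : g.degree < (n + 1 : ℕ)) : (taylor (-1) g - g).degree < (n : ℕ) := by
  rcases eq_or_ne g 0 with rfl | hg0
  · simp only [map_zero, sub_self, degree_zero]
    exact WithBot.bot_lt_coe n
  · have h1 : (taylor (-1) g - g).degree < (taylor (-1) g).degree := by
      apply degree_sub_lt_left
      · rw [degree_taylor]
      · rwa [ne_eq, taylor_eq_zero]
      · rw [leadingCoeff_taylor]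
    rw [degree_taylor] at h1
    have h2 : g.degree ≤ (n : ℕ) := by
      rw [degree_eq_natDegree hg0] at hg ⊢
      norm_cast at hg ⊢
      omega
    exact h1.trans_le h2

lemma taylor_fixed {R : Type*} [CommRing R] [IsDomain R] [CharZero R] {g : R[X]}
    (hg : taylor (-1) g = g) : ∃ c, g = C c := by
  refine ⟨g.eval 0, ?_⟩
  apply Polynomial.eq_of_infinite_eval_eq
  have h : ∀ n : ℕ, g.eval (n : R) = g.eval 0 := by
    intro n
    induction n with
    | zero => simp
    | succ n ih =>
      have h1 : (taylor (-1) g).eval ((n + 1 : ℕ) : R) = g.eval (n : R) := by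
        rw [taylor_eval]
        congr 1
        push_cast
        ring
      rw [hg] at h1
      rw [h1, ih]
  have hinf : (Set.range (fun n : ℕ => (n : R))).Infinite :=
    Set.infinite_range_of_injective Nat.cast_injective
  refine hinf.mono ?_
  rintro _ ⟨n, rfl⟩
  simp only [Set.mem_ofPred_eq, eval_C]
  exact h n

/-- the iterated differences of a nonzero polynomial contain a nonzero constant -/
lemma exists_diff_const {R : Type*} [CommRing R] [IsDomain R] [CharZero R] (g : R[X])
    (hg : g ≠ 0) : ∃ (n : ℕ) (c : R), c ≠ 0 ∧ (fun h => taylor (-1) h - h)^[n] g = C c := by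
  have key : ∀ n : ℕ, ∀ g : R[X], g ≠ 0 → g.degree < (n : ℕ) →
      ∃ (n : ℕ) (c : R), c ≠ 0 ∧ (fun h => taylor (-1) h - h)^[n] g = C c := by
    intro n
    induction n with
    | zero =>
      intro g hg hd
      exfalso
      rw [degree_eq_natDegree hg] at hd
      norm_cast at hd
    | succ n ih =>
      intro g hg hd
      by_cases h : taylor (-1) g - g = 0
      · obtain ⟨c, hc⟩ := taylor_fixed (sub_eq_zero.1 h)
        refine ⟨0, c, ?_, by simpa using hc⟩
        rintro rfl
        exact hg (by simpa using hc)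
      · obtain ⟨m, c, hc, hm⟩ := ih _ h (taylor_sub_degree hd)
        exact ⟨m + 1, c, hc, by rw [Function.iterate_succ_apply]; exact hm⟩
  exact key (g.natDegree + 1) g hg (by
    rw [degree_eq_natDegree hg]
    norm_cast
    omega)

end nil

end

end Q2.WA
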