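import Pool.Agent.Q2.WA.Mod

/-!
# The two-point module is simple
-/

namespace Q2.WA

noncomputable section

open Polynomial

variable {k : Type*} [Field k]

lemma t1_sub (g : Pol2 k) : ((t1 k : Module.End k (Pol2 k)) - (1 : k) • 1) g =
    taylor (-1) g - g := by
  rw [LinearMap.sub_apply, t1_apply, one_smul, Module.End.one_apply]
  rfl

lemma nil1 (n : ℕ) (g : Pol2 k) (hg : g.degree < (n : ℕ)) :
    (((t1 k : Module.End k (Pol2 k)) - (1 : k) • 1) ^ n) g = 0 := by
  induction n generalizing g with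
  | zero =>
    have : g = 0 := by
      by_contra h
      rw [degree_eq_natDegree h] at hg
      norm_cast at hg
    rw [this, map_zero]
  | succ n ih =>
    rw [pow_succ, Module.End.mul_apply, t1_sub]
    exact ih _ (taylor_sub_degree hg)

lemma a2_coeff (g : Pol2 k) (i : ℕ) : (a2 k g).coeff i = taylor (-1) (g.coeff i) := by
  simp [a2]
  rfl

lemma nil2 (n : ℕ) (g : Pol2 k) (hg : ∀ i, (g.coeff i).degree < (n : ℕ)) :
    (((t2 k : Module.End k (Pol2 k)) - (-1 : k) • 1) ^ n) g = 0 := by
  induction n generalizing g with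
  | zero =>
    have : g = 0 := by
      ext1 i
      by_contra h
      have h1 := hg i
      rw [degree_eq_natDegree (by simpa using h)] at h1
      norm_cast at h1
    rw [this, map_zero]
  | succ n ih =>
    rw [pow_succ, Module.End.mul_apply]
    apply ih
    intro i
    have : ((((t2 k : Module.End k (Pol2 k)) - (-1 : k) • 1) g)).coeff i =
        - (taylor (-1) (g.coeff i) - g.coeff i) := by
      rw [LinearMap.sub_apply, t2_apply, LinearMap.smul_apply, Module.End.one_apply, coeff_sub,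
        coeff_neg, a2_coeff, coeff_smul]
      module
    rw [this, degree_neg]
    exact taylor_sub_degree (hg i)

lemma exists_nil1 (g : Pol2 k) : ∃ n : ℕ,
    (((t1 k : Module.End k (Pol2 k)) - (1 : k) • 1) ^ n) g = 0 := by
  refine ⟨g.natDegree + 1, nil1 _ _ ?_⟩
  exact lt_of_le_of_lt degree_le_natDegree (by norm_cast; omega)

lemma exists_nil2 (g : Pol2 k) : ∃ n : ℕ,
    (((t2 k : Module.End k (Pol2 k)) - (-1 : k) • 1) ^ n) g = 0 := by
  refine ⟨(g.support.sup fun i => (g.coeff i).natDegree) + 1, nil2 _ _ ?_⟩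
  intro i
  by_cases h : g.coeff i = 0
  · rw [h, degree_zero]
    exact WithBot.bot_lt_coe _
  · have h1 : (g.coeff i).natDegree ≤ g.support.sup fun i => (g.coeff i).natDegree :=
      Finset.le_sup (f := fun i => (g.coeff i).natDegree) (by simpa using h)
    exact lt_of_le_of_lt degree_le_natDegree (by norm_cast; omega)

namespace Two

variable {D : Type*} [Ring D] [Algebra k D] (W : Two k D) (b : k)

/-- the second summand of `L m` -/
def Y (m : ℤ) : D := (W.y - ((m : k) * b) • (1 : D)) * ((W.T2 ^ m : Dˣ) : D)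

lemma L_eq_add (m : ℤ) : W.L b m = ((W.T1 ^ m : Dˣ) : D) * W.x + W.Y b m := rfl

lemma Y_eq (m : ℤ) : W.Y b m = ((W.T2 ^ m : Dˣ) : D) * W.y +
    ((m : k) * (1 - b)) • ((W.T2 ^ m : Dˣ) : D) := by
  have h := W.T2_zpow_y (k := k) m
  rw [sub_eq_iff_eq_add] at h
  rw [Y, sub_mul, h, smul_mul_assoc, one_mul]
  module

lemma YY (p q M : ℤ) (h : p + q = M) : W.Y b p * W.Y b q =
    W.y * W.y * ((W.T2 ^ M : Dˣ) : D) -
      ((p : k) * b + p + q * b) • (W.y * ((W.T2 ^ M : Dˣ) : D)) +
      ((p : k) * b * (p + q * b)) • ((W.T2 ^ M : Dˣ) : D) := by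
  subst h
  have h2 : ((W.T2 ^ p : Dˣ) : D) * W.y = W.y * ((W.T2 ^ p : Dˣ) : D) -
      (p : k) • ((W.T2 ^ p : Dˣ) : D) := by
    have h := W.T2_zpow_y (k := k) p
    rw [← h]
    abel
  have m2 : ((W.T2 ^ (p + q) : Dˣ) : D) = ((W.T2 ^ p : Dˣ) : D) * ((W.T2 ^ q : Dˣ) : D) := by
    rw [zpow_add, Units.val_mul]
  rw [m2]
  calc W.Y b p * W.Y b q = (W.y - ((p : k) * b) • (1 : D)) *
        ((((W.T2 ^ p : Dˣ) : D) * W.y - ((q : k) * b) • ((W.T2 ^ p : Dˣ) : D)) *
          ((W.T2 ^ q : Dˣ) : D)) := by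
        simp only [Y, mul_sub, sub_mul, smul_mul_assoc, mul_smul_comm, mul_assoc, one_mul, smul_sub]
    _ = _ := by
        rw [h2]
        simp only [mul_sub, sub_mul, smul_mul_assoc, mul_smul_comm, mul_assoc, one_mul, smul_sub,
          smul_smul]
        module

lemma Y_second (s : ℤ) : W.Y b 1 * W.Y b (s - 1) - (2 : k) • (W.Y b 0 * W.Y b s) +
    W.Y b (-1) * W.Y b (s + 1) = (2 * b * (1 - b)) • ((W.T2 ^ s : Dˣ) : D) := by
  rw [YY W b 1 (s - 1) s (by ring), YY W b 0 s s (by ring), YY W b (-1) (s + 1) s (by ring)]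
  push_cast
  module

end Two

section simple

variable [CharZero k] {b : k} {N : Submodule k (Pol2 k)}
  (hN : ∀ m, ∀ f ∈ N, (W2 k).L b m f ∈ N)

include hN

lemma sep_mem {f : Pol2 k} (hf : f ∈ N) (m : ℤ) :
    ((t1 k ^ m : (Module.End k (Pol2 k))ˣ) : Module.End k (Pol2 k)) (X * f) ∈ N ∧
      (W2 k).Y b m f ∈ N := by
  obtain ⟨d, hd⟩ := exists_nil1 (X * f)
  obtain ⟨e, he⟩ := exists_nil2 (C X * f)
  obtain ⟨e', he'⟩ := exists_nil2 f
  let P : ℤ → Pol2 k := fun m => ((t1 k ^ m : (Module.End k (Pol2 k))ˣ) :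
    Module.End k (Pol2 k)) (X * f)
  let R : ℤ → Pol2 k := fun m => (W2 k).Y b m f
  have hP : aeval (sh (k := k)) ((X - 1 : k[X]) ^ d) P = 0 := by
    funext m
    have := sh_sub_pow (t1 k) (1 : k) d (X * f) m
    rw [C_1] at this
    rw [this, hd, map_zero]
    rfl
  have hR : aeval (sh (k := k)) ((X + 1 : k[X]) ^ (e + (e' + 1))) R = 0 := by
    have hX : (X + 1 : k[X]) = X - C (-1) := by simp
    have h1 : R = (fun m : ℤ => ((t2 k ^ m : (Module.End k (Pol2 k))ˣ) :
        Module.End k (Pol2 k)) (C X * f)) +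
        (1 - b) • (fun m : ℤ => ((m : ℤ) : k) • ((t2 k ^ m : (Module.End k (Pol2 k))ˣ) :
        Module.End k (Pol2 k)) f) := by
      funext m
      change (W2 k).Y b m f = _
      rw [Two.Y_eq, LinearMap.add_apply, Module.End.mul_apply, LinearMap.smul_apply,
        Pi.add_apply, Pi.smul_apply, smul_smul, mul_comm (1 - b)]
      rfl
    have h2 : aeval (sh (k := k)) ((X - C (-1) : k[X]) ^ e)
        (fun m => ((t2 k ^ m : (Module.End k (Pol2 k))ˣ) : Module.End k (Pol2 k)) (C X * f)) =
          0 := by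
      funext m
      rw [sh_sub_pow (t2 k) (-1 : k) e (C X * f) m, he, map_zero]
      rfl
    have h3 : aeval (sh (k := k)) ((X - C (-1) : k[X]) ^ e')
        (fun m => ((t2 k ^ m : (Module.End k (Pol2 k))ˣ) : Module.End k (Pol2 k)) f) = 0 := by
      funext m
      rw [sh_sub_pow (t2 k) (-1 : k) e' f m, he', map_zero]
      rfl
    have h4 := sh_mul (-1 : k) e' _ h3
    rw [h1, hX, map_add, map_smul]
    have h5 : aeval (sh (k := k)) ((X - C (-1) : k[X]) ^ (e + (e' + 1)))
        (fun m => ((t2 k ^ m : (Module.End k (Pol2 k))ˣ) : Module.End k (Pol2 k)) (C X * f)) =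
          0 := by
      rw [pow_add, mul_comm, map_mul, Module.End.mul_apply, h2, map_zero]
    have h6 : aeval (sh (k := k)) ((X - C (-1) : k[X]) ^ (e + (e' + 1)))
        (fun m => ((m : ℤ) : k) • ((t2 k ^ m : (Module.End k (Pol2 k))ˣ) :
        Module.End k (Pol2 k)) f) = 0 := by
      rw [pow_add, map_mul, Module.End.mul_apply, h4, map_zero]
    rw [h5, h6, smul_zero, add_zero]
  have hPR : ∀ m, P m + R m ∈ N := by
    intro m
    have := hN m f hf
    rw [Two.L_eq_add, LinearMap.add_apply] at this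
    exact this
  have h1 := sep N hP hR hPR m
  refine ⟨h1, ?_⟩
  have h2 := N.sub_mem (hPR m) h1
  rwa [add_sub_cancel_left] at h2

lemma t2_mem (hb : b ≠ 0) (hb1 : b ≠ 1) {f : Pol2 k} (hf : f ∈ N) (s : ℤ) :
    ((t2 k ^ s : (Module.End k (Pol2 k))ˣ) : Module.End k (Pol2 k)) f ∈ N := by
  have hY : ∀ p q : ℤ, ((W2 k).Y b p * (W2 k).Y b q) f ∈ N := by
    intro p q
    rw [Module.End.mul_apply]
    exact (sep_mem hN (sep_mem hN hf q).2 p).2
  have h := congrArg (fun g : Module.End k (Pol2 k) => g f) ((W2 k).Y_second b s)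
  simp only [LinearMap.add_apply, LinearMap.sub_apply, LinearMap.smul_apply] at h
  have h2 : (2 * b * (1 - b)) • (((t2 k ^ s : (Module.End k (Pol2 k))ˣ) :
      Module.End k (Pol2 k)) f) ∈ N := by
    have h3 := N.add_mem (N.sub_mem (hY 1 (s - 1)) (N.smul_mem 2 (hY 0 s))) (hY (-1) (s + 1))
    rw [h] at h3
    exact h3
  have hne : 2 * b * (1 - b) ≠ 0 :=
    mul_ne_zero (mul_ne_zero (by norm_num) hb) (sub_ne_zero.2 (Ne.symm hb1))
  have h4 := N.smul_mem (2 * b * (1 - b))⁻¹ h2
  rwa [smul_smul, inv_mul_cancel₀ hne, one_smul] at h4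

/-- every nonzero invariant subspace is everything -/
theorem eq_top_of_ne_bot (hb : b ≠ 0) (hb1 : b ≠ 1) (h0 : N ≠ ⊥) : N = ⊤ := by
  obtain ⟨f, hf, hf0⟩ := N.ne_bot_iff.1 h0
  have hX : ∀ f ∈ N, X * f ∈ N := by
    intro f hf
    have := (sep_mem hN hf 0).1
    rw [zpow_zero] at this
    exact this
  have hCX : ∀ f ∈ N, C X * f ∈ N := by
    intro f hf
    have := (sep_mem hN hf 0).2
    rw [Two.Y_eq, zpow_zero] at this
    simp only [Units.val_one, one_mul, Int.cast_zero, zero_mul, zero_smul, add_zero] at this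
    exact this
  -- a polynomial in `y`
  obtain ⟨c, hc0, hc⟩ : ∃ c : k[X], c ≠ 0 ∧ C c ∈ N := by
    obtain ⟨n, c, hc, hn⟩ := exists_diff_const (X * f) (mul_ne_zero X_ne_zero hf0)
    refine ⟨c, hc, ?_⟩
    have key : ∀ n : ℕ, ∀ g : Pol2 k, (∀ m : ℤ, ((t1 k ^ m : (Module.End k (Pol2 k))ˣ) :
        Module.End k (Pol2 k)) g ∈ N) → (fun h => taylor (-1) h - h)^[n] g ∈ N := by
      intro n
      induction n with
      | zero =>
        intro g hg
        have := hg 0
        rw [zpow_zero] at this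
        exact this
      | succ n ih =>
        intro g hg
        rw [Function.iterate_succ_apply]
        apply ih
        intro m
        rw [map_sub]
        refine N.sub_mem ?_ (hg m)
        have := hg (m + 1)
        rw [zpow_add_one, Units.val_mul, Module.End.mul_apply] at this
        exact this
    rw [← hn]
    exact key n _ (fun m => (sep_mem hN hf m).1)
  -- a constant
  obtain ⟨r, hr0, hr⟩ : ∃ r : k, r ≠ 0 ∧ C (C r) ∈ N := by
    obtain ⟨n, r, hr, hn⟩ := exists_diff_const c hc0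
    refine ⟨r, hr, ?_⟩
    have key : ∀ n : ℕ, ∀ g : k[X], C g ∈ N → C ((fun h => taylor (-1) h - h)^[n] g) ∈ N := by
      intro n
      induction n with
      | zero => intro g hg; exact hg
      | succ n ih =>
        intro g hg
        rw [Function.iterate_succ_apply]
        apply ih
        have h1 := t2_mem hN hb hb1 hg 1
        rw [zpow_one, t2_apply, a2_C] at h1
        rw [C_sub]
        refine N.sub_mem ?_ hg
        have := N.neg_mem h1
        rwa [neg_neg] at this
    rw [← hn]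
    exact key n c hc
  have h1 : (1 : Pol2 k) ∈ N := by
    have := N.smul_mem r⁻¹ hr
    have h2 : r⁻¹ • (C (C r) : Pol2 k) = 1 := by
      rw [Algebra.smul_def]
      have : (algebraMap k (Pol2 k)) r⁻¹ = C (C r⁻¹) := rfl
      rw [this, ← C_mul, ← C_mul, inv_mul_cancel₀ hr0, C_1, C_1]
    rwa [h2] at this
  have hXn : ∀ n : ℕ, ∀ f ∈ N, X ^ n * f ∈ N := by
    intro n
    induction n with
    | zero => intro f hf; simpa using hf
    | succ n ih => intro f hf; rw [pow_succ, mul_assoc]; exact ih _ (hX f hf)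
  have hCXn : ∀ n : ℕ, ∀ f ∈ N, (C X) ^ n * f ∈ N := by
    intro n
    induction n with
    | zero => intro f hf; simpa using hf
    | succ n ih => intro f hf; rw [pow_succ, mul_assoc]; exact ih _ (hCX f hf)
  have hC : ∀ p : k[X], (C p : Pol2 k) ∈ N := by
    intro p
    induction p using Polynomial.induction_on' with
    | add p q hp hq => rw [C_add]; exact N.add_mem hp hq
    | monomial j a =>
      have h2 : (C (monomial j a) : Pol2 k) = a • ((C X) ^ j * 1) := by
        rw [← C_mul_X_pow_eq_monomial, C_mul, C_pow, mul_one, Algebra.smul_def]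
        rfl
      rw [h2]
      exact N.smul_mem a (hCXn j 1 h1)
  rw [eq_top_iff]
  intro g _
  have hg : ∀ g : Pol2 k, g ∈ N := by
    intro g
    induction g using Polynomial.induction_on' with
    | add p q hp hq => exact N.add_mem hp hq
    | monomial n p =>
      rw [← C_mul_X_pow_eq_monomial, mul_comm]
      exact hXn n _ (hC p)
  exact hg g

end simple

end

end Q2.WA
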