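import Mathlib

/-!
# Two-point algebras

Let `D` be an algebra with commuting elements `x, y` and commuting units `T1, T2` such that
`T1 x = (x - 1) T1`, `T2 y = (y - 1) T2`, and `T1`, `T2` commute with `y`, `x`. The elements
`L m = T1 ^ m x + (y - m b) T2 ^ m` satisfy the relations of the Witt algebra. If `b ≠ 0, 1` the
subalgebra `B` generated by them contains `g(T1, T2) T1 ^ p T2 ^ q x` for all integers `p, q`,
where `g = (T1 - T2) ^ 9`.
-/

namespace Q2.WA

noncomputable section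

open AddMonoidAlgebra (single)

/-- Laurent polynomials in two variables -/
abbrev L2 (k : Type*) [Field k] : Type _ := AddMonoidAlgebra k (ℤ × ℤ)

variable {k : Type*} [Field k]

variable (k) in
/-- monomials -/
def mon (a : ℤ × ℤ) : L2 k := single a 1

lemma mon_mul (a c : ℤ × ℤ) : mon k a * mon k c = mon k (a + c) := by
  simp [mon]

lemma mon_zero : mon k 0 = 1 := rfl

lemma L2_induction {P : L2 k → Prop} (f : L2 k) (h0 : P 0) (hadd : ∀ f g, P f → P g → P (f + g))
    (hm : ∀ (c : k) a, P (c • mon k a)) : P f := by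
  induction f using AddMonoidAlgebra.induction_linear with
  | zero => exact h0
  | add f g hf hg => exact hadd f g hf hg
  | single a c =>
    have : (single a c : L2 k) = c • mon k a := by simp [mon]
    rw [this]
    exact hm c a

/-- the linear map with eigenvector `mon a` of eigenvalue `φ a` -/
def eulL (φ : ℤ × ℤ →+ ℤ) : L2 k →ₗ[k] L2 k :=
  (AddMonoidAlgebra.basis (ℤ × ℤ) k).constr k (fun a => (φ a : k) • mon k a)

lemma eulL_mon (φ : ℤ × ℤ →+ ℤ) (a : ℤ × ℤ) : eulL φ (mon k a) = (φ a : k) • mon k a := by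
  have : mon k a = AddMonoidAlgebra.basis (ℤ × ℤ) k a := by
    rw [AddMonoidAlgebra.basis_apply]; rfl
  conv_lhs => rw [this]
  rw [eulL, Module.Basis.constr_basis]

/-- Euler derivations -/
def eul (φ : ℤ × ℤ →+ ℤ) : Derivation k (L2 k) (L2 k) :=
  Derivation.mk' (eulL φ) (by
    intro f g
    induction f using L2_induction with
    | h0 => simp
    | hadd f f' hf hf' =>
      rw [add_mul, map_add, hf, hf', map_add]
      simp only [smul_eq_mul]
      ring
    | hm c a =>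
      induction g using L2_induction with
      | h0 => simp
      | hadd g g' hg hg' =>
        rw [mul_add, map_add, hg, hg', map_add]
        simp only [smul_eq_mul]
        ring
      | hm d e =>
        rw [smul_mul_smul_comm, mon_mul, map_smul, map_smul, map_smul, eulL_mon, eulL_mon,
          eulL_mon, map_add, smul_eq_mul, smul_eq_mul, smul_smul, smul_smul, smul_smul,
          smul_mul_smul_comm, smul_mul_smul_comm, mon_mul, mon_mul, add_comm e a]
        push_cast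
        module)

lemma eul_mon (φ : ℤ × ℤ →+ ℤ) (a : ℤ × ℤ) : eul φ (mon k a) = (φ a : k) • mon k a :=
  eulL_mon φ a

/-- the derivation `T1 d/dT1` -/
abbrev e1 : Derivation k (L2 k) (L2 k) := eul (AddMonoidHom.fst ℤ ℤ)

/-- the derivation `T2 d/dT2` -/
abbrev e2 : Derivation k (L2 k) (L2 k) := eul (AddMonoidHom.snd ℤ ℤ)

lemma e1_mon (a : ℤ × ℤ) : e1 (mon k a) = (a.1 : k) • mon k a := eul_mon _ a

lemma e2_mon (a : ℤ × ℤ) : e2 (mon k a) = (a.2 : k) • mon k a := eul_mon _ a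

/-- two-point data -/
structure Two (k D : Type*) [Field k] [Ring D] [Algebra k D] where
  x : D
  y : D
  T1 : Dˣ
  T2 : Dˣ
  xy : x * y = y * x
  TT : Commute T1 T2
  T1x : (T1 : D) * x = x * T1 - T1
  T1y : (T1 : D) * y = y * T1
  T2x : (T2 : D) * x = x * T2
  T2y : (T2 : D) * y = y * T2 - T2

namespace Two

variable {D : Type*} [Ring D] [Algebra k D] (W : Two k D)

/-- evaluation at `T1, T2` -/
def ρ : L2 k →ₐ[k] D :=
  AddMonoidAlgebra.lift k D (ℤ × ℤ)
    { toFun := fun a => ((W.T1 ^ (Multiplicative.toAdd a).1 *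
        W.T2 ^ (Multiplicative.toAdd a).2 : Dˣ) : D)
      map_one' := by simp
      map_mul' := by
        intro a c
        rw [← Units.val_mul]
        congr 1
        rw [toAdd_mul, Prod.fst_add, Prod.snd_add, zpow_add, zpow_add]
        have := (W.TT.zpow_zpow (Multiplicative.toAdd c).1 (Multiplicative.toAdd a).2).eq
        calc _ = W.T1 ^ (Multiplicative.toAdd a).1 * (W.T1 ^ (Multiplicative.toAdd c).1 *
            W.T2 ^ (Multiplicative.toAdd a).2) * W.T2 ^ (Multiplicative.toAdd c).2 := by group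
          _ = _ := by rw [this]; group }

lemma ρ_mon (a : ℤ × ℤ) : W.ρ (mon k a) = ((W.T1 ^ a.1 * W.T2 ^ a.2 : Dˣ) : D) := by
  rw [ρ, mon, AddMonoidAlgebra.lift_single, one_smul]
  rfl

lemma ρ_comm (f g : L2 k) : W.ρ f * W.ρ g = W.ρ g * W.ρ f := by
  rw [← map_mul, ← map_mul, mul_comm]

lemma T1_zpow_x (m : ℤ) : W.x * ((W.T1 ^ m : Dˣ) : D) - ((W.T1 ^ m : Dˣ) : D) * W.x =
    (m : k) • ((W.T1 ^ m : Dˣ) : D) := by
  induction m using Int.induction_on with
  | zero => simp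
  | succ n ih =>
    rw [zpow_add_one, Units.val_mul]
    have h : W.x * (((W.T1 ^ (n : ℤ) : Dˣ) : D) * W.T1) - ((W.T1 ^ (n : ℤ) : Dˣ) : D) * W.T1 * W.x =
        (W.x * ((W.T1 ^ (n : ℤ) : Dˣ) : D) - ((W.T1 ^ (n : ℤ) : Dˣ) : D) * W.x) * W.T1 +
        ((W.T1 ^ (n : ℤ) : Dˣ) : D) * (W.x * W.T1 - W.T1 * W.x) := by noncomm_ring
    rw [h, ih, W.T1x, sub_sub_cancel, smul_mul_assoc]
    push_cast
    module
  | pred n ih =>
    have h0 : ((W.T1 ^ (-(n : ℤ)) : Dˣ) : D) = ((W.T1 ^ (-(n : ℤ) - 1) : Dˣ) : D) * W.T1 := by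
      rw [← Units.val_mul, ← zpow_add_one, sub_add_cancel]
    have h : (W.x * ((W.T1 ^ (-(n : ℤ) - 1) : Dˣ) : D) -
        ((W.T1 ^ (-(n : ℤ) - 1) : Dˣ) : D) * W.x) * W.T1 =
        ((-(n : ℤ) - 1 : ℤ) : k) • (((W.T1 ^ (-(n : ℤ) - 1) : Dˣ) : D) * W.T1) := by
      have h2 : (W.x * ((W.T1 ^ (-(n : ℤ) - 1) : Dˣ) : D) -
        ((W.T1 ^ (-(n : ℤ) - 1) : Dˣ) : D) * W.x) * W.T1 =
        (W.x * (((W.T1 ^ (-(n : ℤ) - 1) : Dˣ) : D) * W.T1) -
        (((W.T1 ^ (-(n : ℤ) - 1) : Dˣ) : D) * W.T1) * W.x) -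
          ((W.T1 ^ (-(n : ℤ) - 1) : Dˣ) : D) * (W.x * W.T1 - W.T1 * W.x) := by noncomm_ring
      rw [h2, ← h0, ih, W.T1x, sub_sub_cancel, ← h0]
      push_cast
      module
    rw [← smul_mul_assoc] at h
    exact (Units.mul_left_inj W.T1).1 h

lemma T2_zpow_y (m : ℤ) : W.y * ((W.T2 ^ m : Dˣ) : D) - ((W.T2 ^ m : Dˣ) : D) * W.y =
    (m : k) • ((W.T2 ^ m : Dˣ) : D) :=
  T1_zpow_x (k := k) ⟨W.y, W.x, W.T2, W.T1, W.xy.symm, W.TT.symm, W.T2y, W.T2x, W.T1y, W.T1x⟩ m

lemma T1_zpow_y (m : ℤ) : ((W.T1 ^ m : Dˣ) : D) * W.y = W.y * ((W.T1 ^ m : Dˣ) : D) := by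
  have : Commute W.y (W.T1 : D) := W.T1y.symm
  exact (Commute.units_zpow_right this m).symm

lemma T2_zpow_x (m : ℤ) : ((W.T2 ^ m : Dˣ) : D) * W.x = W.x * ((W.T2 ^ m : Dˣ) : D) := by
  have : Commute W.x (W.T2 : D) := W.T2x.symm
  exact (Commute.units_zpow_right this m).symm

lemma x_ρ (f : L2 k) : W.x * W.ρ f = W.ρ f * W.x + W.ρ (e1 f) := by
  induction f using L2_induction with
  | h0 => simp
  | hadd f g hf hg => simp only [map_add, mul_add, add_mul, hf, hg]; abel
  | hm c a =>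
    rw [Derivation.map_smul, e1_mon, map_smul, map_smul, map_smul, mul_smul_comm, smul_mul_assoc]
    rw [← smul_add]
    congr 1
    rw [ρ_mon, Units.val_mul]
    have h1 := W.T1_zpow_x a.1
    have h2 := W.T2_zpow_x a.2
    rw [sub_eq_iff_eq_add] at h1
    rw [← mul_assoc, h1, add_mul, smul_mul_assoc, mul_assoc, ← h2, mul_assoc]
    abel

lemma y_ρ (f : L2 k) : W.y * W.ρ f = W.ρ f * W.y + W.ρ (e2 f) := by
  induction f using L2_induction with
  | h0 => simp
  | hadd f g hf hg => simp only [map_add, mul_add, add_mul, hf, hg]; abel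
  | hm c a =>
    rw [Derivation.map_smul, e2_mon, map_smul, map_smul, map_smul, mul_smul_comm, smul_mul_assoc]
    rw [← smul_add]
    congr 1
    rw [ρ_mon, Units.val_mul]
    have h1 := W.T2_zpow_y a.2
    have h2 := W.T1_zpow_y a.1
    rw [sub_eq_iff_eq_add] at h1
    rw [← mul_assoc, ← h2, mul_assoc, h1, mul_add, mul_smul_comm, mul_assoc]
    abel

end Two

end

end Q2.WA
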