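import Pool.Agent.Q2.WA.TwoPt

/-!
# The elements `g(T1, T2) T1 ^ p T2 ^ q x` of the two-point algebra
-/

namespace Q2.WA

noncomputable section

open AddMonoidAlgebra (single)

variable {k : Type*} [Field k]

namespace Two

variable {D : Type*} [Ring D] [Algebra k D] (W : Two k D) (b : k)

/-- the operators of the Witt algebra -/
def L (m : ℤ) : D := ((W.T1 ^ m : Dˣ) : D) * W.x +
  (W.y - ((m : k) * b) • (1 : D)) * ((W.T2 ^ m : Dˣ) : D)

lemma L_eq (m : ℤ) : W.L b m = W.ρ (mon k (m, 0)) * W.x + (W.y - ((m : k) * b) • (1 : D)) *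
    W.ρ (mon k (0, m)) := by
  rw [L, ρ_mon, ρ_mon]
  simp

lemma LL (p q M : ℤ) (h : p + q = M) : W.L b p * W.L b q =
    W.ρ (mon k (M, 0)) * W.x * W.x + (q : k) • (W.ρ (mon k (M, 0)) * W.x) +
    (W.y * W.ρ (mon k (p, q)) * W.x - ((q : k) * b) • (W.ρ (mon k (p, q)) * W.x)) +
    (W.y * W.ρ (mon k (q, p)) * W.x - ((p : k) * b) • (W.ρ (mon k (q, p)) * W.x)) +
    (W.y * W.y * W.ρ (mon k (0, M)) -
      ((p : k) * b + p + q * b) • (W.y * W.ρ (mon k (0, M))) +
      ((p : k) * b * (p + q * b)) • W.ρ (mon k (0, M))) := by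
  subst h
  have h1 : W.x * W.ρ (mon k (q, 0)) = W.ρ (mon k (q, 0)) * W.x + (q : k) • W.ρ (mon k (q, 0)) := by
    rw [x_ρ, e1_mon, map_smul]
  have h2 : W.ρ (mon k (0, p)) * W.y = W.y * W.ρ (mon k (0, p)) - (p : k) • W.ρ (mon k (0, p)) := by
    rw [y_ρ, e2_mon, map_smul, add_sub_cancel_right]
  have h3 : W.x * W.ρ (mon k (0, q)) = W.ρ (mon k (0, q)) * W.x := by
    rw [x_ρ, e1_mon]
    simp
  have h4 : W.ρ (mon k (p, 0)) * W.y = W.y * W.ρ (mon k (p, 0)) := by
    rw [y_ρ, e2_mon]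
    simp
  have m1 : W.ρ (mon k (p, 0)) * W.ρ (mon k (q, 0)) = W.ρ (mon k (p + q, 0)) := by
    rw [← map_mul, mon_mul, Prod.mk_add_mk, add_zero]
  have m2 : W.ρ (mon k (0, p)) * W.ρ (mon k (0, q)) = W.ρ (mon k (0, p + q)) := by
    rw [← map_mul, mon_mul, Prod.mk_add_mk, add_zero]
  have m3 : W.ρ (mon k (p, 0)) * W.ρ (mon k (0, q)) = W.ρ (mon k (p, q)) := by
    rw [← map_mul, mon_mul, Prod.mk_add_mk, add_zero, zero_add]
  have m4 : W.ρ (mon k (0, p)) * W.ρ (mon k (q, 0)) = W.ρ (mon k (q, p)) := by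
    rw [← map_mul, mon_mul, Prod.mk_add_mk, add_zero, zero_add]
  have hXX : W.ρ (mon k (p, 0)) * W.x * (W.ρ (mon k (q, 0)) * W.x) =
      W.ρ (mon k (p + q, 0)) * W.x * W.x + (q : k) • (W.ρ (mon k (p + q, 0)) * W.x) := by
    rw [← m1]
    calc _ = W.ρ (mon k (p, 0)) * (W.x * W.ρ (mon k (q, 0))) * W.x := by noncomm_ring
      _ = _ := by
        rw [h1, mul_add, add_mul, mul_smul_comm, smul_mul_assoc]
        simp only [mul_assoc]
  have hYY : (W.y - ((p : k) * b) • (1 : D)) * W.ρ (mon k (0, p)) *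
      ((W.y - ((q : k) * b) • (1 : D)) * W.ρ (mon k (0, q))) =
      W.y * W.y * W.ρ (mon k (0, p + q)) -
      ((p : k) * b + p + q * b) • (W.y * W.ρ (mon k (0, p + q))) +
      ((p : k) * b * (p + q * b)) • W.ρ (mon k (0, p + q)) := by
    rw [← m2]
    calc _ = (W.y - ((p : k) * b) • (1 : D)) * ((W.ρ (mon k (0, p)) * W.y -
        ((q : k) * b) • W.ρ (mon k (0, p))) * W.ρ (mon k (0, q))) := by
          simp only [mul_sub, sub_mul, smul_mul_assoc, mul_smul_comm, mul_assoc, one_mul, smul_sub]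
      _ = _ := by
        rw [h2]
        simp only [mul_sub, sub_mul, smul_mul_assoc, mul_smul_comm, mul_assoc, one_mul, smul_sub,
          smul_smul]
        module
  have hXY : W.ρ (mon k (p, 0)) * W.x * ((W.y - ((q : k) * b) • (1 : D)) * W.ρ (mon k (0, q))) =
      W.y * W.ρ (mon k (p, q)) * W.x - ((q : k) * b) • (W.ρ (mon k (p, q)) * W.x) := by
    rw [← m3]
    calc _ = W.ρ (mon k (p, 0)) * (W.x * W.y) * W.ρ (mon k (0, q)) -
        ((q : k) * b) • (W.ρ (mon k (p, 0)) * (W.x * W.ρ (mon k (0, q)))) := by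
          simp only [mul_sub, sub_mul, smul_mul_assoc, mul_smul_comm, mul_assoc, one_mul]
      _ = (W.ρ (mon k (p, 0)) * W.y) * (W.x * W.ρ (mon k (0, q))) -
        ((q : k) * b) • (W.ρ (mon k (p, 0)) * (W.x * W.ρ (mon k (0, q)))) := by
          rw [W.xy]
          simp only [mul_assoc]
      _ = _ := by
        rw [h3, h4]
        simp only [mul_assoc]
  have hYX : (W.y - ((p : k) * b) • (1 : D)) * W.ρ (mon k (0, p)) * (W.ρ (mon k (q, 0)) * W.x) =
      W.y * W.ρ (mon k (q, p)) * W.x - ((p : k) * b) • (W.ρ (mon k (q, p)) * W.x) := by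
    rw [← m4]
    simp only [sub_mul, smul_mul_assoc, mul_assoc, one_mul]
  rw [L_eq, L_eq, add_mul, mul_add, mul_add, hXX, hXY, hYX, hYY]
  abel

/-- the relations of the Witt algebra -/
lemma L_comm (m n : ℤ) : W.L b m * W.L b n - W.L b n * W.L b m =
    (((n - m : ℤ)) : k) • W.L b (m + n) := by
  rw [LL W b m n (m + n) rfl, LL W b n m (m + n) (add_comm _ _), L_eq]
  simp only [add_mul, sub_mul, smul_mul_assoc, one_mul, smul_add, smul_sub, smul_smul]
  push_cast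
  module

/-- the symmetric monomials -/
def S (p q : ℤ) : L2 k := mon k (p, q) + mon k (q, p)

/-- `T1 - T2` -/
def Δ : L2 k := mon k (1, 0) - mon k (0, 1)

lemma mon_add (p q r s : ℤ) : mon k (p + r, q + s) = mon k (p, q) * mon k (r, s) := by
  rw [mon_mul, Prod.mk_add_mk]

lemma mon_nat (i j : ℕ) : mon k ((i : ℤ), (j : ℤ)) = mon k (1, 0) ^ i * mon k (0, 1) ^ j := by
  have h1 : ∀ i : ℕ, mon k ((i : ℤ), 0) = mon k (1, 0) ^ i := by
    intro i
    induction i with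
    | zero => rw [pow_zero]; exact mon_zero
    | succ n ih => rw [pow_succ, ← ih, mon_mul]; simp
  have h2 : ∀ i : ℕ, mon k (0, (i : ℤ)) = mon k (0, 1) ^ i := by
    intro i
    induction i with
    | zero => rw [pow_zero]; exact mon_zero
    | succ n ih => rw [pow_succ, ← ih, mon_mul]; simp
  rw [← h1, ← h2, mon_mul]
  simp

lemma Δ4S (m n : ℤ) : (Δ : L2 k) ^ 4 * S m n =
    S (m + 4) n - (4 : k) • S (m + 3) (n + 1) + (6 : k) • S (m + 2) (n + 2) -
      (4 : k) • S (m + 1) (n + 3) + S m (n + 4) := by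
  have h : ∀ (p q : ℤ) (i j : ℕ), mon k (p + i, q + j) =
      mon k (p, q) * (mon k (1, 0) ^ i * mon k (0, 1) ^ j) := by
    intro p q i j
    rw [mon_add, mon_nat]
  have a0 := h m n 4 0
  have a1 := h m n 3 1
  have a2 := h m n 2 2
  have a3 := h m n 1 3
  have a4 := h m n 0 4
  have c0 := h n m 0 4
  have c1 := h n m 1 3
  have c2 := h n m 2 2
  have c3 := h n m 3 1
  have c4 := h n m 4 0
  push_cast at a0 a1 a2 a3 a4 c0 c1 c2 c3 c4
  simp only [add_zero] at a0 a4 c0 c4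
  simp only [S, Δ, a0, a1, a2, a3, a4, c0, c1, c2, c3, c4, Algebra.smul_def, map_ofNat]
  ring

/-- the quadratic elements -/
def EE (f : L2 k) : D := (W.y * W.ρ f - b • W.ρ (e2 f)) * W.x

lemma EE_mem {B : Subalgebra k D} (hB : ∀ m, W.L b m ∈ B) (m n : ℤ) :
    W.EE b (Δ ^ 4 * S m n) ∈ B := by
  have h : W.EE b (Δ ^ 4 * S m n) =
      W.L b (m + 4) * W.L b n - (4 : k) • (W.L b (m + 3) * W.L b (n + 1)) +
      (6 : k) • (W.L b (m + 2) * W.L b (n + 2)) - (4 : k) • (W.L b (m + 1) * W.L b (n + 3)) +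
      W.L b m * W.L b (n + 4) := by
    rw [LL W b (m + 4) n (m + n + 4) (by ring), LL W b (m + 3) (n + 1) (m + n + 4) (by ring),
      LL W b (m + 2) (n + 2) (m + n + 4) (by ring), LL W b (m + 1) (n + 3) (m + n + 4) (by ring),
      LL W b m (n + 4) (m + n + 4) (by ring), Δ4S]
    simp only [EE, S, map_add, map_sub, map_smul, Derivation.map_smul, e2_mon, mul_add, mul_sub,
      add_mul, sub_mul, mul_smul_comm, smul_mul_assoc, smul_add, smul_sub, smul_smul]
    push_cast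
    module
  rw [h]
  have hm := fun m => hB m
  exact B.add_mem (B.sub_mem (B.add_mem (B.sub_mem (B.mul_mem (hm _) (hm _))
    (B.smul_mem (B.mul_mem (hm _) (hm _)) _)) (B.smul_mem (B.mul_mem (hm _) (hm _)) _))
    (B.smul_mem (B.mul_mem (hm _) (hm _)) _)) (B.mul_mem (hm _) (hm _))

lemma EE_mul (f g : L2 k) : W.EE b f * W.EE b g =
    W.y * W.y * W.ρ (f * g) * W.x * W.x -
    W.y * W.ρ ((1 + b) • (e2 f * g) + b • (f * e2 g)) * W.x * W.x +
    W.ρ (b • (e2 (e2 f) * g) + (b * b) • (e2 f * e2 g)) * W.x * W.x +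
    W.y * W.y * W.ρ (f * e1 g) * W.x -
    W.y * W.ρ ((1 + b) • (e2 f * e1 g) + b • (f * e1 (e2 g))) * W.x +
    W.ρ (b • (e2 (e2 f) * e1 g) + (b * b) • (e2 f * e1 (e2 g))) * W.x := by
  have h1 : W.x * (W.y * W.ρ g - b • W.ρ (e2 g)) = (W.y * W.ρ g - b • W.ρ (e2 g)) * W.x +
      (W.y * W.ρ (e1 g) - b • W.ρ (e1 (e2 g))) := by
    rw [mul_sub, ← mul_assoc, W.xy, mul_assoc, x_ρ, mul_smul_comm, x_ρ]
    simp only [mul_add, sub_mul, smul_add, smul_mul_assoc, mul_assoc]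
    abel
  have h2 : ∀ h h' : L2 k, (W.y * W.ρ f - b • W.ρ (e2 f)) * (W.y * W.ρ h - b • W.ρ h') =
      W.y * W.y * W.ρ (f * h) - W.y * W.ρ ((1 + b) • (e2 f * h) + b • (f * h')) +
      W.ρ (b • (e2 (e2 f) * h) + (b * b) • (e2 f * h')) := by
    intro h h'
    have h3 : W.ρ f * W.y = W.y * W.ρ f - W.ρ (e2 f) := by rw [y_ρ, add_sub_cancel_right]
    have h4 : W.ρ (e2 f) * W.y = W.y * W.ρ (e2 f) - W.ρ (e2 (e2 f)) := by
      rw [y_ρ, add_sub_cancel_right]
    calc _ = W.y * (W.ρ f * W.y) * W.ρ h - b • (W.y * (W.ρ f * W.ρ h')) -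
        b • ((W.ρ (e2 f) * W.y) * W.ρ h) + (b * b) • (W.ρ (e2 f) * W.ρ h') := by
          simp only [mul_sub, sub_mul, smul_mul_assoc, mul_smul_comm, mul_assoc, smul_sub,
            smul_smul]
          abel
      _ = _ := by
        rw [h3, h4]
        simp only [mul_sub, sub_mul, smul_mul_assoc, mul_smul_comm, mul_assoc, smul_sub,
            smul_smul, map_add, map_smul, map_mul, mul_add]
        module
  calc W.EE b f * W.EE b g = (W.y * W.ρ f - b • W.ρ (e2 f)) *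
      (W.x * (W.y * W.ρ g - b • W.ρ (e2 g))) * W.x := by
        rw [EE, EE]
        noncomm_ring
    _ = ((W.y * W.ρ f - b • W.ρ (e2 f)) * (W.y * W.ρ g - b • W.ρ (e2 g))) * W.x * W.x +
      ((W.y * W.ρ f - b • W.ρ (e2 f)) * (W.y * W.ρ (e1 g) - b • W.ρ (e1 (e2 g)))) * W.x := by
        rw [h1]
        noncomm_ring
    _ = _ := by
        rw [h2, h2]
        simp only [add_mul, sub_mul]
        abel

/-- the monomial `T1 T2` -/
def sg : L2 k := mon k (1, 1)

lemma e1_sg (n : ℕ) (f : L2 k) : e1 (sg ^ n * f) = sg ^ n * ((n : k) • f + e1 f) := by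
  have h1 : e1 (sg : L2 k) = sg := by rw [sg, e1_mon]; simp
  induction n with
  | zero => simp
  | succ n ih =>
    rw [pow_succ', mul_assoc, Derivation.leibniz, ih, h1]
    simp only [smul_eq_mul]
    push_cast
    rw [add_smul, one_smul]
    ring

lemma e2_sg (n : ℕ) (f : L2 k) : e2 (sg ^ n * f) = sg ^ n * ((n : k) • f + e2 f) := by
  have h1 : e2 (sg : L2 k) = sg := by rw [sg, e2_mon]; simp
  induction n with
  | zero => simp
  | succ n ih =>
    rw [pow_succ', mul_assoc, Derivation.leibniz, ih, h1]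
    simp only [smul_eq_mul]
    push_cast
    rw [add_smul, one_smul]
    ring

lemma third (f g : L2 k) :
    W.EE b (sg ^ 0 * f) * W.EE b (sg ^ 3 * g) - (3 : k) • (W.EE b (sg ^ 1 * f) *
      W.EE b (sg ^ 2 * g)) + (3 : k) • (W.EE b (sg ^ 2 * f) * W.EE b (sg ^ 1 * g)) -
      W.EE b (sg ^ 3 * f) * W.EE b (sg ^ 0 * g) =
    (6 * b * (1 - b)) • (W.ρ (sg ^ 3 * (f * g)) * W.x) := by
  have hlin : ∀ P : L2 k → L2 k → L2 k, P (sg ^ 0 * f) (sg ^ 3 * g) -
      (3 : k) • P (sg ^ 1 * f) (sg ^ 2 * g) + (3 : k) • P (sg ^ 2 * f) (sg ^ 1 * g) -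
      P (sg ^ 3 * f) (sg ^ 0 * g) = 0 → W.ρ (P (sg ^ 0 * f) (sg ^ 3 * g)) -
      (3 : k) • W.ρ (P (sg ^ 1 * f) (sg ^ 2 * g)) + (3 : k) • W.ρ (P (sg ^ 2 * f) (sg ^ 1 * g)) -
      W.ρ (P (sg ^ 3 * f) (sg ^ 0 * g)) = 0 := by
    intro P h
    rw [← map_smul, ← map_smul, ← map_sub, ← map_add, ← map_sub, h, map_zero]
  have z1 := hlin (fun f g => f * g) (by
    simp only [Algebra.smul_def, map_ofNat]
    ring)
  have z2 := hlin (fun f g => (1 + b) • (e2 f * g) + b • (f * e2 g)) (by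
    simp only [e2_sg]
    simp only [Algebra.smul_def, map_ofNat, map_natCast, map_add, map_one]
    push_cast
    ring)
  have z3 := hlin (fun f g => b • (e2 (e2 f) * g) + (b * b) • (e2 f * e2 g)) (by
    simp only [e2_sg, map_add, Derivation.map_smul]
    simp only [Algebra.smul_def, map_ofNat, map_natCast, map_mul]
    push_cast
    ring)
  have z4 := hlin (fun f g => f * e1 g) (by
    simp only [e1_sg]
    simp only [Algebra.smul_def, map_ofNat, map_natCast]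
    push_cast
    ring)
  have z5 := hlin (fun f g => (1 + b) • (e2 f * e1 g) + b • (f * e1 (e2 g))) (by
    simp only [e2_sg, e1_sg, map_add, Derivation.map_smul]
    simp only [Algebra.smul_def, map_ofNat, map_natCast, map_mul, map_add, map_one]
    push_cast
    ring)
  have z6 : W.ρ (b • (e2 (e2 (sg ^ 0 * f)) * e1 (sg ^ 3 * g)) +
      (b * b) • (e2 (sg ^ 0 * f) * e1 (e2 (sg ^ 3 * g)))) -
      (3 : k) • W.ρ (b • (e2 (e2 (sg ^ 1 * f)) * e1 (sg ^ 2 * g)) +
      (b * b) • (e2 (sg ^ 1 * f) * e1 (e2 (sg ^ 2 * g)))) +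
      (3 : k) • W.ρ (b • (e2 (e2 (sg ^ 2 * f)) * e1 (sg ^ 1 * g)) +
      (b * b) • (e2 (sg ^ 2 * f) * e1 (e2 (sg ^ 1 * g)))) -
      W.ρ (b • (e2 (e2 (sg ^ 3 * f)) * e1 (sg ^ 0 * g)) +
      (b * b) • (e2 (sg ^ 3 * f) * e1 (e2 (sg ^ 0 * g)))) =
      (6 * b * (1 - b)) • W.ρ (sg ^ 3 * (f * g)) := by
    rw [← map_smul, ← map_smul, ← map_sub, ← map_add, ← map_sub, ← map_smul]
    congr 1
    simp only [e2_sg, e1_sg, map_add, Derivation.map_smul]
    simp only [Algebra.smul_def, map_ofNat, map_natCast, map_mul, map_add, map_sub, map_one]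
    push_cast
    ring
  have w : ∀ (l : D →ₗ[k] D) (A B C E : D), A - (3 : k) • B + (3 : k) • C - E = 0 →
      l A - (3 : k) • l B + (3 : k) • l C - l E = 0 := by
    intro l A B C E h
    rw [← map_smul, ← map_smul, ← map_sub, ← map_add, ← map_sub, h, map_zero]
  have t1 := w ((LinearMap.mulRight k (W.x * W.x)).comp (LinearMap.mulLeft k (W.y * W.y))) _ _ _ _ z1
  have t2 := w ((LinearMap.mulRight k (W.x * W.x)).comp (LinearMap.mulLeft k W.y)) _ _ _ _ z2
  have t3 := w (LinearMap.mulRight k (W.x * W.x)) _ _ _ _ z3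
  have t4 := w ((LinearMap.mulRight k W.x).comp (LinearMap.mulLeft k (W.y * W.y))) _ _ _ _ z4
  have t5 := w ((LinearMap.mulRight k W.x).comp (LinearMap.mulLeft k W.y)) _ _ _ _ z5
  have t6 := congrArg (fun t => t * W.x) z6
  simp only [LinearMap.comp_apply, LinearMap.mulRight_apply, LinearMap.mulLeft_apply,
    ← mul_assoc (_ : D) W.x W.x] at t1 t2 t3 t4 t5
  simp only [sub_mul, add_mul, smul_mul_assoc] at t6
  rw [EE_mul, EE_mul, EE_mul, EE_mul]
  linear_combination (norm := module) t1 - t2 + t3 + t4 - t5 + t6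

end Two

end

end Q2.WA
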