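import Pool.Agent.Q2.WA.TwoPtB

/-!
# The family `U` in the subalgebra generated by the `L m`
-/

namespace Q2.WA

noncomputable section

variable {k : Type*} [Field k]

namespace Two

variable {D : Type*} [Ring D] [Algebra k D] (W : Two k D) (b : k)

lemma sg_S (j : ℕ) (m n : ℤ) : (sg : L2 k) ^ j * (Δ ^ 4 * S m n) = Δ ^ 4 * S (m + j) (n + j) := by
  induction j with
  | zero => simp
  | succ i ih =>
    rw [pow_succ', mul_assoc, ih]
    have h : ∀ p q : ℤ, sg * mon k (p, q) = mon k (p + 1, q + 1) := by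
      intro p q
      rw [sg, mon_add, mul_comm]
    calc (sg : L2 k) * (Δ ^ 4 * S (m + i) (n + i)) =
        Δ ^ 4 * (sg * mon k (m + i, n + i) + sg * mon k (n + i, m + i)) := by rw [S]; ring
      _ = _ := by
        rw [h, h, S]
        push_cast
        rw [add_assoc, add_assoc]

section mem

variable {b} {B : Subalgebra k D} (hB : ∀ m, W.L b m ∈ B)

include hB

lemma mem8 [CharZero k] (hb : b ≠ 0) (hb1 : b ≠ 1) (p q : ℤ) :
    W.ρ (Δ ^ 8 * S p q) * W.x ∈ B := by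
  have h := third W b (Δ ^ 4 * S (p - 3) (q - 3)) (Δ ^ 4 * S 0 0)
  have hE := fun (j : ℕ) (m n : ℤ) => (show W.EE b (sg ^ j * (Δ ^ 4 * S m n)) ∈ B by
    rw [sg_S]
    exact EE_mem W b hB _ _)
  have h2 : (6 * b * (1 - b)) • (W.ρ (sg ^ 3 * (Δ ^ 4 * S (p - 3) (q - 3) * (Δ ^ 4 * S 0 0))) *
      W.x) ∈ B := by
    rw [← h]
    exact B.sub_mem (B.add_mem (B.sub_mem (B.mul_mem (hE _ _ _) (hE _ _ _))
      (B.smul_mem (B.mul_mem (hE _ _ _) (hE _ _ _)) _))
      (B.smul_mem (B.mul_mem (hE _ _ _) (hE _ _ _)) _)) (B.mul_mem (hE _ _ _) (hE _ _ _))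
  have h3 : (sg : L2 k) ^ 3 * (Δ ^ 4 * S (p - 3) (q - 3) * (Δ ^ 4 * S 0 0)) =
      (2 : k) • (Δ ^ 8 * S p q) := by
    rw [← mul_assoc, sg_S]
    have h0 : (S 0 0 : L2 k) = 2 := by
      rw [S]
      have : mon k ((0 : ℤ), (0 : ℤ)) = 1 := rfl
      rw [this]
      norm_num
    rw [h0]
    push_cast
    rw [sub_add_cancel, sub_add_cancel, Algebra.smul_def, map_ofNat]
    ring
  rw [h3, map_smul, smul_mul_assoc, smul_smul] at h2
  have hne : 6 * b * (1 - b) * 2 ≠ 0 := by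
    have : (1 : k) - b ≠ 0 := sub_ne_zero.2 (Ne.symm hb1)
    exact mul_ne_zero (mul_ne_zero (mul_ne_zero (by norm_num) hb) this) (by norm_num)
  have h4 := B.smul_mem h2 (6 * b * (1 - b) * 2)⁻¹
  rwa [smul_smul, inv_mul_cancel₀ hne, one_smul] at h4

end mem

lemma comm_L1 (H : L2 k) : W.L b 1 * (W.ρ H * W.x) - (W.ρ H * W.x) * W.L b 1 =
    W.ρ (mon k (1, 0) * e1 H + mon k (0, 1) * e2 H - mon k (1, 0) * H) * W.x := by
  have h1 : W.x * W.ρ (mon k (1, 0)) = W.ρ (mon k (1, 0)) * W.x + W.ρ (mon k (1, 0)) := by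
    rw [x_ρ, e1_mon]
    simp
  have h3 : W.x * W.ρ (mon k (0, 1)) = W.ρ (mon k (0, 1)) * W.x := by
    rw [x_ρ, e1_mon]
    simp
  have hH : W.x * W.ρ H = W.ρ H * W.x + W.ρ (e1 H) := x_ρ W H
  have hy : W.ρ H * W.y = W.y * W.ρ H - W.ρ (e2 H) := by rw [y_ρ, add_sub_cancel_right]
  have a1 : W.ρ (mon k (1, 0)) * W.x * (W.ρ H * W.x) = W.ρ (mon k (1, 0)) * W.ρ H * W.x * W.x +
      W.ρ (mon k (1, 0)) * W.ρ (e1 H) * W.x := by
    calc _ = W.ρ (mon k (1, 0)) * (W.x * W.ρ H) * W.x := by noncomm_ring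
      _ = _ := by rw [hH]; noncomm_ring
  have a2 : W.ρ H * W.x * (W.ρ (mon k (1, 0)) * W.x) = W.ρ H * W.ρ (mon k (1, 0)) * W.x * W.x +
      W.ρ H * W.ρ (mon k (1, 0)) * W.x := by
    calc _ = W.ρ H * (W.x * W.ρ (mon k (1, 0))) * W.x := by noncomm_ring
      _ = _ := by rw [h1]; noncomm_ring
  have a3 : W.ρ H * W.x * ((W.y - (((1 : ℤ) : k) * b) • (1 : D)) * W.ρ (mon k (0, 1))) =
      W.y * W.ρ H * W.ρ (mon k (0, 1)) * W.x - W.ρ (e2 H) * W.ρ (mon k (0, 1)) * W.x -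
        (((1 : ℤ) : k) * b) • (W.ρ H * W.ρ (mon k (0, 1)) * W.x) := by
    calc _ = (W.ρ H * W.y) * (W.x * W.ρ (mon k (0, 1))) -
        (((1 : ℤ) : k) * b) • (W.ρ H * (W.x * W.ρ (mon k (0, 1)))) := by
          rw [sub_mul, mul_sub, smul_mul_assoc, one_mul, mul_smul_comm]
          have : W.ρ H * W.x * (W.y * W.ρ (mon k (0, 1))) =
            W.ρ H * (W.x * W.y) * W.ρ (mon k (0, 1)) := by noncomm_ring
          rw [this, W.xy]
          noncomm_ring
      _ = _ := by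
          rw [h3, hy]
          noncomm_ring
  rw [L_eq, add_mul, mul_add, a1, a2, a3]
  simp only [map_add, map_sub, map_mul, sub_mul, smul_mul_assoc, one_mul, add_mul]
  rw [W.ρ_comm H, W.ρ_comm (e2 H), mul_assoc W.y (W.ρ H), W.ρ_comm H]
  simp only [mul_assoc]
  abel

lemma euler_Δ8 (p q : ℤ) : mon k (1, 0) * e1 (Δ ^ 8 * S p q) + mon k (0, 1) * e2 (Δ ^ 8 * S p q) =
    ((8 + p : ℤ) : k) • (Δ ^ 8 * S (p + 1) q) + ((8 + q : ℤ) : k) • (Δ ^ 8 * S p (q + 1)) := by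
  have h1 : e1 (Δ : L2 k) = mon k (1, 0) := by
    rw [Δ, map_sub, e1_mon, e1_mon]
    simp
  have h2 : e2 (Δ : L2 k) = - mon k (0, 1) := by
    rw [Δ, map_sub, e2_mon, e2_mon]
    simp
  have m1 : mon k (p + 1, q) = mon k (p, q) * mon k (1, 0) := by rw [← mon_add, add_zero]
  have m2 : mon k (p, q + 1) = mon k (p, q) * mon k (0, 1) := by rw [← mon_add, add_zero]
  have m3 : mon k (q, p + 1) = mon k (q, p) * mon k (0, 1) := by rw [← mon_add, add_zero]
  have m4 : mon k (q + 1, p) = mon k (q, p) * mon k (1, 0) := by rw [← mon_add, add_zero]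
  have c1 : (((8 + p : ℤ) : k)) = 8 + (p : k) := by push_cast; ring
  have c2 : (((8 + q : ℤ) : k)) = 8 + (q : k) := by push_cast; ring
  simp only [S, Derivation.leibniz, Derivation.leibniz_pow, map_add, e1_mon, e2_mon, h1, h2, m1,
    m2, m3, m4, smul_eq_mul, nsmul_eq_mul, Algebra.smul_def, c1, c2, map_ofNat]
  simp only [Δ]
  push_cast
  ring

section mem

variable {b} {B : Subalgebra k D} (hB : ∀ m, W.L b m ∈ B)

include hB

lemma mem_T1 [CharZero k] (hb : b ≠ 0) (hb1 : b ≠ 1) (p q : ℤ) :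
    W.ρ (mon k (1, 0) * (Δ ^ 8 * S p q)) * W.x ∈ B := by
  have h := comm_L1 W b (Δ ^ 8 * S p q)
  rw [euler_Δ8, map_sub, map_add, map_smul, map_smul, sub_mul, add_mul, smul_mul_assoc,
    smul_mul_assoc] at h
  have h8 := fun p q => mem8 W hB hb hb1 p q
  have h2 : W.ρ (mon k (1, 0) * (Δ ^ 8 * S p q)) * W.x =
      ((8 + p : ℤ) : k) • (W.ρ (Δ ^ 8 * S (p + 1) q) * W.x) +
        ((8 + q : ℤ) : k) • (W.ρ (Δ ^ 8 * S p (q + 1)) * W.x) -
      (W.L b 1 * (W.ρ (Δ ^ 8 * S p q) * W.x) - (W.ρ (Δ ^ 8 * S p q) * W.x) * W.L b 1) := by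
    rw [h]
    abel
  rw [h2]
  exact B.sub_mem (B.add_mem (B.smul_mem (h8 _ _) _) (B.smul_mem (h8 _ _) _))
    (B.sub_mem (B.mul_mem (hB _) (h8 _ _)) (B.mul_mem (h8 _ _) (hB _)))

lemma mem9 [CharZero k] (hb : b ≠ 0) (hb1 : b ≠ 1) (a : ℤ × ℤ) :
    W.ρ (Δ ^ 9 * mon k a) * W.x ∈ B := by
  obtain ⟨p, q⟩ := a
  have m1 : mon k (q + 1, p) = mon k (q, p) * mon k (1, 0) := by rw [← mon_add, add_zero]
  have m2 : mon k (p, q + 1) = mon k (p, q) * mon k (0, 1) := by rw [← mon_add, add_zero]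
  have h : (Δ : L2 k) ^ 9 * mon k (p, q) = mon k (1, 0) * (Δ ^ 8 * S p q) - Δ ^ 8 * S p (q + 1) := by
    rw [S, S, m1, m2, pow_succ]
    simp only [Δ]
    ring
  rw [h, map_sub, sub_mul]
  exact B.sub_mem (mem_T1 W hB hb hb1 p q) (mem8 W hB hb hb1 p (q + 1))

end mem

/-- the family `U` -/
def U (a : ℤ × ℤ) : D := W.ρ (Δ ^ 9 * mon k a) * W.x

/-- the family `V` -/
def V (a : ℤ × ℤ) : D := W.ρ (Δ ^ 18 * mon k a) * W.x

lemma U_mul (a c : ℤ × ℤ) : W.U a * W.U c = W.U (a + c) * W.U 0 + ((c.1 : ℤ) : k) • W.V (a + c) := by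
  have h : ∀ f g : L2 k, W.ρ f * W.x * (W.ρ g * W.x) = W.ρ (f * g) * W.x * W.x +
      W.ρ (f * e1 g) * W.x := by
    intro f g
    calc _ = W.ρ f * (W.x * W.ρ g) * W.x := by noncomm_ring
      _ = _ := by rw [x_ρ, map_mul, map_mul]; noncomm_ring
  rw [U, U, U, U, V, h, h]
  have h1 : (Δ : L2 k) ^ 9 * mon k a * (Δ ^ 9 * mon k c) =
      Δ ^ 9 * mon k (a + c) * (Δ ^ 9 * mon k 0) := by
    rw [← mon_mul, mon_zero]
    ring
  have h2 : (Δ : L2 k) ^ 9 * mon k a * e1 (Δ ^ 9 * mon k c) =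
      Δ ^ 9 * mon k (a + c) * e1 (Δ ^ 9 * mon k 0) +
        ((c.1 : ℤ) : k) • (Δ ^ 18 * mon k (a + c)) := by
    rw [← mon_mul, mon_zero, mul_one, Derivation.leibniz, e1_mon]
    simp only [smul_eq_mul, Algebra.smul_def]
    ring
  rw [h1, h2, map_add, add_mul, map_smul, smul_mul_assoc, add_assoc]

lemma V_mem {B : Subalgebra k D} (hU : ∀ a, W.U a ∈ B) (a : ℤ × ℤ) : W.V a ∈ B := by
  have h : ∀ f : L2 k, W.ρ (Δ ^ 9 * f) * W.x ∈ B := by
    intro f
    induction f using L2_induction with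
    | h0 => simp
    | hadd f g hf hg => rw [mul_add, map_add, add_mul]; exact B.add_mem hf hg
    | hm c a => rw [mul_smul_comm, map_smul, smul_mul_assoc]; exact B.smul_mem (hU a) _
  have := h (Δ ^ 9 * mon k a)
  rw [← mul_assoc, ← pow_add] at this
  exact this

lemma coeff_eul (φ : ℤ × ℤ →+ ℤ) (f : L2 k) (a : ℤ × ℤ) :
    (eul φ f).coeff a = (φ a : k) * f.coeff a := by
  classical
  induction f using L2_induction with
  | h0 => simp
  | hadd f g hf hg => simp [hf, hg, mul_add]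
  | hm c d =>
    rw [Derivation.map_smul, eul_mon]
    simp only [mon, AddMonoidAlgebra.coeff_smul, AddMonoidAlgebra.coeff_single,
      Finsupp.smul_apply, smul_eq_mul, Finsupp.single_apply]
    by_cases h : d = a
    · subst h
      simp only [if_true]
      ring
    · simp [h]

/-- `f ↦ ρ(f) x` is injective -/
lemma ρx_injective [CharZero k] (hx : W.x ≠ 0) (f : L2 k) (hf : W.ρ f * W.x = 0) : f = 0 := by
  classical
  induction hn : f.coeff.support.card using Nat.strong_induction_on generalizing f with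
  | _ n ih =>
  by_contra hf0
  have hc : f.coeff ≠ 0 := by simpa using hf0
  obtain ⟨a, ha⟩ := Finsupp.ne_iff.1 hc
  rw [Finsupp.zero_apply] at ha
  have he1 : W.ρ (e1 f) * W.x = 0 := by
    have h1 : W.x * W.ρ f * W.x = 0 := by rw [mul_assoc, hf, mul_zero]
    rw [x_ρ, add_mul, hf, zero_mul, zero_add] at h1
    exact h1
  have he2 : W.ρ (e2 f) * W.x = 0 := by
    have h1 : W.y * W.ρ f * W.x = 0 := by rw [mul_assoc, hf, mul_zero]
    rw [y_ρ, add_mul, mul_assoc, ← W.xy, ← mul_assoc, hf, zero_mul, zero_add] at h1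
    exact h1
  have key : ∀ φ : ℤ × ℤ →+ ℤ, W.ρ (eul φ f) * W.x = 0 → ∀ c, f.coeff c ≠ 0 → φ c = φ a := by
    intro φ hφ c hc
    by_contra hne
    have h1 : W.ρ (eul φ f - (φ a : k) • f) * W.x = 0 := by
      rw [map_sub, map_smul, sub_mul, smul_mul_assoc, hφ, hf, smul_zero, sub_zero]
    have hco : ∀ d, (eul φ f - (φ a : k) • f).coeff d = ((φ d - φ a : ℤ) : k) * f.coeff d := by
      intro d
      rw [AddMonoidAlgebra.coeff_sub, Finsupp.sub_apply, coeff_eul, AddMonoidAlgebra.coeff_smul,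
        Finsupp.smul_apply, smul_eq_mul]
      push_cast
      ring
    have hlt : (eul φ f - (φ a : k) • f).coeff.support.card < n := by
      rw [← hn]
      apply Finset.card_lt_card
      rw [Finset.ssubset_iff_of_subset]
      · refine ⟨a, by simpa using ha, ?_⟩
        rw [Finsupp.mem_support_iff, hco]
        simp
      · intro d hd
        rw [Finsupp.mem_support_iff, hco] at hd
        rw [Finsupp.mem_support_iff]
        exact right_ne_zero_of_mul hd
    have h2 := ih _ hlt _ h1 rfl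
    have h3 := hco c
    rw [h2] at h3
    simp only [AddMonoidAlgebra.coeff_zero, Finsupp.zero_apply] at h3
    have h4 : ((φ c - φ a : ℤ) : k) ≠ 0 := by
      rw [Int.cast_ne_zero]
      omega
    exact (mul_ne_zero h4 hc) h3.symm
  have hsupp : ∀ c, f.coeff c ≠ 0 → c = a := by
    intro c hc
    exact Prod.ext (key _ he1 c hc) (key _ he2 c hc)
  have hfa : f = (f.coeff a) • mon k a := by
    ext c
    by_cases h : c = a
    · subst h
      simp [mon]
    · have : f.coeff c = 0 := by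
        by_contra h2
        exact h (hsupp c h2)
      rw [this]
      simp [mon, Ne.symm h]
  rw [hfa, map_smul, smul_mul_assoc, ρ_mon] at hf
  have h5 := (smul_eq_zero.1 hf).resolve_left ha
  rw [Units.mul_right_eq_zero] at h5
  exact hx h5

lemma Δ_ne_zero : (Δ : L2 k) ≠ 0 := by
  intro h
  have := congrArg (fun f => f.coeff ((1 : ℤ), (0 : ℤ))) h
  simp [Δ, mon] at this

lemma U_linearIndependent [CharZero k] (hx : W.x ≠ 0) (a : ℤ × ℤ) (ha : a ≠ 0) :
    LinearIndependent k (fun n : ℕ => W.U (n • a)) := by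
  let l : L2 k →ₗ[k] D := (LinearMap.mulRight k W.x).comp
    (W.ρ.toLinearMap.comp (LinearMap.mulLeft k (Δ ^ 9)))
  have hl : LinearMap.ker l = ⊥ := by
    rw [LinearMap.ker_eq_bot']
    intro f hf
    have h1 : W.ρ (Δ ^ 9 * f) * W.x = 0 := hf
    have h2 := ρx_injective W hx _ h1
    exact (mul_eq_zero.1 h2).resolve_left (pow_ne_zero _ Δ_ne_zero)
  have hinj : Function.Injective (fun n : ℕ => n • a) := by
    intro m n h
    simp only at h
    have hf := congrArg Prod.fst h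
    have hs := congrArg Prod.snd h
    simp only [Prod.smul_fst] at hf
    simp only [Prod.smul_snd] at hs
    rw [nsmul_eq_mul, nsmul_eq_mul] at hf hs
    by_cases h1 : a.1 = 0
    · have h2 : a.2 ≠ 0 := fun h2 => ha (Prod.ext h1 h2)
      have := mul_right_cancel₀ h2 hs
      exact_mod_cast this
    · have := mul_right_cancel₀ h1 hf
      exact_mod_cast this
  have h1 : LinearIndependent k (mon k) := by
    have := (AddMonoidAlgebra.basis (ℤ × ℤ) k).linearIndependent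
    have h2 : (⇑(AddMonoidAlgebra.basis (ℤ × ℤ) k) : ℤ × ℤ → L2 k) = mon k := by
      funext a
      rw [AddMonoidAlgebra.basis_apply]
      rfl
    rwa [h2] at this
  exact (h1.comp _ hinj).map' l hl

lemma U_ne_zero [CharZero k] (hx : W.x ≠ 0) (a : ℤ × ℤ) : W.U a ≠ 0 := by
  intro h
  have h2 := ρx_injective W hx _ h
  have h3 : mon k a ≠ 0 := by simp [mon]
  exact mul_ne_zero (pow_ne_zero _ Δ_ne_zero) h3 h2

end Two

end

end Q2.WA
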