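import Pool.Agent.Q2.WA.Defs
import Pool.Agent.Q2.WA.Filt

/-!
# Bases of Weyl type of the Weyl algebras
-/

namespace Q2.WA

open Submodule FreeAlgebra

noncomputable section

variable (k : Type*) [Field k]

section gen

variable {k} {X : Type*} (r : FreeAlgebra k X → FreeAlgebra k X → Prop)

/-- the class of a generator -/
def gen (x : X) : RingQuot r := RingQuot.mkAlgHom k r (ι k x)

lemma gen_induction {S : Subalgebra k (RingQuot r)} (h : ∀ x, gen r x ∈ S) : S = ⊤ := by
  rw [eq_top_iff]
  intro y _
  obtain ⟨z, rfl⟩ := RingQuot.mkAlgHom_surjective k r y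
  have h1 : z ∈ Algebra.adjoin k (Set.range (ι k : X → FreeAlgebra k X)) := by
    rw [FreeAlgebra.adjoin_range_ι]
    trivial
  have h2 : Algebra.adjoin k (Set.range (ι k : X → FreeAlgebra k X)) ≤
      S.comap (RingQuot.mkAlgHom k r) := by
    rw [Algebra.adjoin_le_iff]
    rintro _ ⟨x, rfl⟩
    exact h x
  exact h2 h1

/-- If `N : V → RingQuot r` intertwines the generators, then it intertwines everything. -/
lemma intertwine {V : Type*} [AddCommGroup V] [Module k V]
    (rep : RingQuot r →ₐ[k] Module.End k V) (N : V →ₗ[k] RingQuot r)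
    (h : ∀ x v, N (rep (gen r x) v) = gen r x * N v) (P : RingQuot r) (v : V) :
    N (rep P v) = P * N v := by
  let S : Subalgebra k (RingQuot r) :=
    { carrier := {P | ∀ v, N (rep P v) = P * N v}
      mul_mem' := by
        intro P Q hP hQ v
        rw [map_mul, Module.End.mul_apply, hP, hQ, mul_assoc]
      add_mem' := by
        intro P Q hP hQ v
        rw [map_add, LinearMap.add_apply, map_add, hP, hQ, add_mul]
      algebraMap_mem' := by
        intro c v
        rw [AlgHom.commutes, Module.algebraMap_end_apply, map_smul, Algebra.smul_def] }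
  have hS : S = ⊤ := gen_induction r (S := S) (fun x v => h x v)
  have : P ∈ S := by rw [hS]; trivial
  exact this v

end gen

/-! ### the localized Weyl algebra -/

section loc

lemma loc_t_tinv : gen (LocRel k) .t * gen (LocRel k) .tinv = 1 := by
  have := RingQuot.mkAlgHom_rel k (LocRel.t_tinv (k := k))
  simpa [gen] using this

lemma loc_tinv_t : gen (LocRel k) .tinv * gen (LocRel k) .t = 1 := by
  have := RingQuot.mkAlgHom_rel k (LocRel.tinv_t (k := k))
  simpa [gen] using this

lemma loc_dt : gen (LocRel k) .d * gen (LocRel k) .t =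
    gen (LocRel k) .t * gen (LocRel k) .d + 1 := by
  have := RingQuot.mkAlgHom_rel k (LocRel.dt (k := k))
  simpa [gen] using this

/-- the unit `t` -/
def tu : (LocWeyl k)ˣ := ⟨gen (LocRel k) .t, gen (LocRel k) .tinv, loc_t_tinv k, loc_tinv_t k⟩

/-- the derivation -/
def td : LocWeyl k := gen (LocRel k) .d

lemma td_tu : td k * (tu k : LocWeyl k) = (tu k : LocWeyl k) * td k + 1 := loc_dt k

lemma td_zpow (a : ℤ) : td k * ((tu k ^ a : (LocWeyl k)ˣ) : LocWeyl k) =
    ((tu k ^ a : (LocWeyl k)ˣ) : LocWeyl k) * td k +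
      (a : k) • ((tu k ^ (a - 1) : (LocWeyl k)ˣ) : LocWeyl k) := by
  induction a using Int.induction_on with
  | zero => simp
  | succ n ih =>
    have h1 : (tu k ^ ((n : ℤ) + 1) : (LocWeyl k)ˣ) = tu k ^ (n : ℤ) * tu k := zpow_add_one _ _
    have h2 : (((tu k ^ ((n : ℤ) - 1) : (LocWeyl k)ˣ)) : LocWeyl k) * (tu k : LocWeyl k) =
        ((tu k ^ (n : ℤ) : (LocWeyl k)ˣ) : LocWeyl k) := by
      rw [← Units.val_mul, ← zpow_add_one, sub_add_cancel]
    rw [h1, Units.val_mul, ← mul_assoc, ih, add_mul, mul_assoc, td_tu, smul_mul_assoc, h2,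
      mul_add, mul_one, add_sub_cancel_right, mul_assoc, add_assoc]
    congr 1
    push_cast
    rw [add_smul, one_smul, add_comm]
  | pred n ih =>
    have h1 : (tu k ^ (-(n : ℤ)) : (LocWeyl k)ˣ) = tu k ^ (-(n : ℤ) - 1) * tu k := by
      rw [← zpow_add_one, sub_add_cancel]
    have h3 : td k * ((tu k ^ (-(n : ℤ) - 1) : (LocWeyl k)ˣ) : LocWeyl k) * (tu k : LocWeyl k) =
        (((tu k ^ (-(n : ℤ) - 1) : (LocWeyl k)ˣ) : LocWeyl k) * td k +
          ((-(n : ℤ) - 1 : ℤ) : k) • ((tu k ^ (-(n : ℤ) - 1 - 1) : (LocWeyl k)ˣ) : LocWeyl k)) *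
            (tu k : LocWeyl k) := by
      rw [add_mul, mul_assoc _ (td k), td_tu, mul_add, mul_one, smul_mul_assoc]
      have h4 : (((tu k ^ (-(n : ℤ) - 1 - 1) : (LocWeyl k)ˣ)) : LocWeyl k) * (tu k : LocWeyl k) =
        ((tu k ^ (-(n : ℤ) - 1) : (LocWeyl k)ˣ) : LocWeyl k) := by
        rw [← Units.val_mul, ← zpow_add_one, sub_add_cancel]
      rw [h4, mul_assoc, ← Units.val_mul, ← h1, ih, ← mul_assoc, ← Units.val_mul, ← h1, add_assoc]
      congr 1
      push_cast
      module
    exact (Units.mul_left_inj (tu k)).1 h3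

/-- the operators of left multiplication by the generators on normally ordered monomials -/
def locOp : LocGen → Module.End k ((ℤ × ℕ) →₀ k)
  | .t => Finsupp.linearCombination k (fun e => Finsupp.single (e.1 + 1, e.2) 1)
  | .tinv => Finsupp.linearCombination k (fun e => Finsupp.single (e.1 - 1, e.2) 1)
  | .d => Finsupp.linearCombination k (fun e => Finsupp.single (e.1, e.2 + 1) 1 +
      (e.1 : k) • Finsupp.single (e.1 - 1, e.2) 1)

lemma locOp_t (e : ℤ × ℕ) : locOp k .t (Finsupp.single e 1) = Finsupp.single (e.1 + 1, e.2) 1 := by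
  rw [locOp, Finsupp.linearCombination_single, one_smul]

lemma locOp_tinv (e : ℤ × ℕ) :
    locOp k .tinv (Finsupp.single e 1) = Finsupp.single (e.1 - 1, e.2) 1 := by
  rw [locOp, Finsupp.linearCombination_single, one_smul]

lemma locOp_d (e : ℤ × ℕ) : locOp k .d (Finsupp.single e 1) = Finsupp.single (e.1, e.2 + 1) 1 +
      (e.1 : k) • Finsupp.single (e.1 - 1, e.2) 1 := by
  rw [locOp, Finsupp.linearCombination_single, one_smul]

variable {k} in
lemma end_ext {I V : Type*} [AddCommGroup V] [Module k V] {f g : (I →₀ k) →ₗ[k] V}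
    (h : ∀ e, f (Finsupp.single e 1) = g (Finsupp.single e 1)) : f = g :=
  (Finsupp.basisSingleOne (R := k) (ι := I)).ext (fun e => by
    simpa using h e)

/-- the left regular representation -/
def locRep : LocWeyl k →ₐ[k] Module.End k ((ℤ × ℕ) →₀ k) :=
  RingQuot.liftAlgHom k ⟨FreeAlgebra.lift k (locOp k), by
    intro x y h
    cases h with
    | t_tinv =>
      rw [map_mul, FreeAlgebra.lift_ι_apply, FreeAlgebra.lift_ι_apply, map_one]
      apply end_ext
      intro e
      rw [Module.End.mul_apply, locOp_tinv, locOp_t]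
      simp
    | tinv_t =>
      rw [map_mul, FreeAlgebra.lift_ι_apply, FreeAlgebra.lift_ι_apply, map_one]
      apply end_ext
      intro e
      rw [Module.End.mul_apply, locOp_t, locOp_tinv]
      simp
    | dt =>
      rw [map_mul, map_add, map_mul, FreeAlgebra.lift_ι_apply, FreeAlgebra.lift_ι_apply, map_one]
      apply end_ext
      intro e
      rw [Module.End.mul_apply, locOp_t, locOp_d, LinearMap.add_apply, Module.End.mul_apply,
        locOp_d, map_add, map_smul, locOp_t, locOp_t, Module.End.one_apply]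
      simp only [add_sub_cancel_right, sub_add_cancel, Prod.mk.eta]
      push_cast
      module⟩

lemma locRep_gen (x : LocGen) : locRep k (gen (LocRel k) x) = locOp k x := by
  rw [locRep, gen, RingQuot.liftAlgHom_mkAlgHom_apply, FreeAlgebra.lift_ι_apply]

/-- normally ordered monomials -/
def locN : ((ℤ × ℕ) →₀ k) →ₗ[k] LocWeyl k :=
  Finsupp.linearCombination k
    (fun e => ((tu k ^ e.1 : (LocWeyl k)ˣ) : LocWeyl k) * td k ^ e.2)

lemma locN_single (e : ℤ × ℕ) : locN k (Finsupp.single e 1) =
    ((tu k ^ e.1 : (LocWeyl k)ˣ) : LocWeyl k) * td k ^ e.2 := by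
  rw [locN, Finsupp.linearCombination_single, one_smul]

lemma locN_gen (x : LocGen) (v : (ℤ × ℕ) →₀ k) :
    locN k (locRep k (gen (LocRel k) x) v) = gen (LocRel k) x * locN k v := by
  rw [locRep_gen]
  have : (locN k).comp (locOp k x) = (LinearMap.mulLeft k (gen (LocRel k) x)).comp (locN k) := by
    apply end_ext
    intro e
    rw [LinearMap.comp_apply, LinearMap.comp_apply, LinearMap.mulLeft_apply, locN_single]
    cases x with
    | t =>
      rw [locOp_t, locN_single, add_comm, zpow_add, zpow_one, Units.val_mul, mul_assoc]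
      rfl
    | tinv =>
      rw [locOp_tinv, locN_single, sub_eq_neg_add, zpow_add, zpow_neg_one, Units.val_mul,
        mul_assoc]
      rfl
    | d =>
      rw [locOp_d, map_add, map_smul, locN_single, locN_single, ← mul_assoc]
      change _ = td k * _ * _
      rw [td_zpow, add_mul, pow_succ', smul_mul_assoc, mul_assoc]
  exact congrArg (fun f => f v) this

lemma locRep_tu (a : ℤ) (e : ℤ × ℕ) :
    locRep k ((tu k ^ a : (LocWeyl k)ˣ) : LocWeyl k) (Finsupp.single e 1) =
      Finsupp.single (e.1 + a, e.2) 1 := by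
  induction a using Int.induction_on generalizing e with
  | zero => simp
  | succ n ih =>
    rw [zpow_add_one, Units.val_mul, map_mul, Module.End.mul_apply]
    have : locRep k (tu k : LocWeyl k) = locOp k .t := locRep_gen k .t
    rw [this, locOp_t, ih]
    simp only [add_comm, add_left_comm]
  | pred n ih =>
    rw [zpow_sub_one, Units.val_mul, map_mul, Module.End.mul_apply]
    have : locRep k ((tu k)⁻¹ : (LocWeyl k)ˣ) = locOp k .tinv := locRep_gen k .tinv
    rw [this, locOp_tinv, ih]
    congr 2
    simp only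
    ring

lemma locRep_td (j : ℕ) :
    locRep k (td k ^ j) (Finsupp.single (0, 0) 1) = Finsupp.single (0, j) 1 := by
  induction j with
  | zero => simp
  | succ n ih =>
    rw [pow_succ', map_mul, Module.End.mul_apply, ih]
    have : locRep k (td k) = locOp k .d := locRep_gen k .d
    rw [this, locOp_d]
    simp

/-- the symbol map -/
def locEquiv : LocWeyl k ≃ₗ[k] ((ℤ × ℕ) →₀ k) :=
  { toFun := fun P => locRep k P (Finsupp.single (0, 0) 1)
    map_add' := by intro P Q; rw [map_add, LinearMap.add_apply]
    map_smul' := by intro c P; rw [map_smul, LinearMap.smul_apply, RingHom.id_apply]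
    invFun := locN k
    left_inv := by
      intro P
      rw [intertwine (LocRel k) (locRep k) (locN k) (locN_gen k), locN_single]
      simp
    right_inv := by
      intro v
      have : ((LinearMap.applyₗ (Finsupp.single ((0 : ℤ), (0 : ℕ)) (1 : k))).comp
          ((locRep k).toLinearMap)).comp (locN k) = LinearMap.id := by
        apply end_ext
        intro e
        simp only [LinearMap.comp_apply, LinearMap.applyₗ_apply_apply, AlgHom.toLinearMap_apply,
          LinearMap.id_apply]
        rw [locN_single, map_mul, Module.End.mul_apply, locRep_td, locRep_tu]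
        simp
      exact congrArg (fun f => f v) this }

/-- the basis `t^a ∂^j` -/
def locB : Module.Basis (ℤ × ℕ) k (LocWeyl k) := Module.Basis.ofRepr (locEquiv k)

lemma locB_apply (e : ℤ × ℕ) :
    locB k e = ((tu k ^ e.1 : (LocWeyl k)ˣ) : LocWeyl k) * td k ^ e.2 := by
  rw [locB, Module.Basis.coe_ofRepr]
  exact locN_single k e

lemma tu_locB (a : ℤ) (e : ℤ × ℕ) :
    ((tu k ^ a : (LocWeyl k)ˣ) : LocWeyl k) * locB k e = locB k (a + e.1, e.2) := by
  rw [locB_apply, locB_apply, ← mul_assoc, ← Units.val_mul, ← zpow_add]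

lemma td_locB (e : ℤ × ℕ) :
    td k * locB k e = locB k (e.1, e.2 + 1) + (e.1 : k) • locB k (e.1 - 1, e.2) := by
  rw [locB_apply, locB_apply, locB_apply, ← mul_assoc, td_zpow, add_mul, pow_succ', mul_assoc,
    smul_mul_assoc]

/-- the weight `α a + β j` -/
def locW (α β : ℤ) (e : ℤ × ℕ) : ℤ := α * e.1 + β * e.2

variable {k} in
lemma mul_LE {E A : Type*} [AddCommMonoid E] [Ring A] [Algebra k A] {b : Module.Basis E k A}
    {l : E → ℤ} {w c : ℤ} {x y : A} (h : ∀ e, x * b e ∈ LE b l (l e + w)) (hy : y ∈ LE b l c) :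
    x * y ∈ LE b l (c + w) := by
  rw [LE] at hy
  induction hy using Submodule.span_induction with
  | mem y hy =>
    obtain ⟨e, he, rfl⟩ := hy
    simp only [Set.mem_ofPred_eq] at he
    exact LE_mono (by omega) (h e)
  | zero => simp
  | add y z _ _ hy hz => rw [mul_add]; exact add_mem hy hz
  | smul r y _ hy => rw [mul_smul_comm]; exact smul_mem _ _ hy

lemma td_mul_LE {α β : ℤ} (hαβ : 1 ≤ α + β) {c : ℤ} {x : LocWeyl k}
    (hx : x ∈ LE (locB k) (locW α β) c) : td k * x ∈ LE (locB k) (locW α β) (c + β) := by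
  refine mul_LE (fun e => ?_) hx
  rw [td_locB]
  refine add_mem (basis_mem_LE ?_) (smul_mem _ _ (basis_mem_LE ?_))
  · simp only [locW]
    push_cast
    linarith
  · simp only [locW]
    linarith

lemma tu_mul_LE {α β : ℤ} {c : ℤ} (a : ℤ) {x : LocWeyl k}
    (hx : x ∈ LE (locB k) (locW α β) c) :
    ((tu k ^ a : (LocWeyl k)ˣ) : LocWeyl k) * x ∈ LE (locB k) (locW α β) (c + α * a) := by
  refine mul_LE (fun e => ?_) hx
  rw [tu_locB]
  refine basis_mem_LE ?_
  simp only [locW]
  linarith

lemma locB_isW {α β : ℤ} (hαβ : 1 ≤ α + β) : IsW (locB k) (locW α β) where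
  add := by
    intro e f
    simp only [locW, Prod.fst_add, Prod.snd_add]
    push_cast
    ring
  mul := by
    have key : ∀ (j : ℕ) (f : ℤ × ℕ), td k ^ j * locB k f - locB k (f.1, j + f.2) ∈
        LE (locB k) (locW α β) (β * j + locW α β f - 1) := by
      intro j
      induction j with
      | zero => intro f; simp
      | succ n ih =>
        intro f
        have h1 := td_mul_LE k hαβ (ih f)
        have h2 : td k ^ (n + 1) * locB k f - locB k (f.1, n + 1 + f.2) =
            td k * (td k ^ n * locB k f - locB k (f.1, n + f.2)) +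
              (f.1 : k) • locB k (f.1 - 1, n + f.2) := by
          rw [mul_sub, td_locB, pow_succ', mul_assoc]
          have : n + 1 + f.2 = n + f.2 + 1 := by omega
          rw [this]
          abel
        rw [h2]
        refine add_mem (LE_mono ?_ h1) (smul_mem _ _ (basis_mem_LE ?_))
        · push_cast
          linarith
        · simp only [locW]
          push_cast
          linarith
    intro e f
    have h1 := tu_mul_LE k e.1 (key e.2 f)
    have h2 : locB k e * locB k f - locB k (e + f) =
        ((tu k ^ e.1 : (LocWeyl k)ˣ) : LocWeyl k) *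
          (td k ^ e.2 * locB k f - locB k (f.1, e.2 + f.2)) := by
      rw [mul_sub, tu_locB, ← mul_assoc, ← locB_apply]
      rfl
    rw [h2]
    refine LE_mono ?_ h1
    simp only [locW]
    linarith

/-- the localized Weyl algebra with its three weights -/
def locGood : Good k (LocWeyl k) where
  E := ℤ × ℕ
  b := locB k
  l := ![locW 0 1, locW 1 1, locW (-1) 2]
  isW := by
    intro i
    fin_cases i
    · exact locB_isW k (by norm_num)
    · exact locB_isW k (by norm_num)
    · exact locB_isW k (by norm_num)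
  pos := by
    intro e
    simp [locW]
  pm := by
    intro e
    simp only [Matrix.cons_val_one, Matrix.cons_val_zero, Matrix.cons_val, locW]
    have : (0 : ℤ) ≤ e.2 := Int.natCast_nonneg _
    linarith
  fin := by
    intro c
    have hsub : {e : ℤ × ℕ | ∀ i, (![locW 0 1, locW 1 1, locW (-1) 2] : Fin 3 → ℤ × ℕ → ℤ) i e ≤
        c i} ⊆ (Set.Icc (-c 2) (c 1)) ×ˢ (Set.Iic (c 0).toNat) := by
      rintro ⟨a, j⟩ h
      have h0 := h 0
      have h1 := h 1
      have h2 := h 2
      simp only [Matrix.cons_val_one, Matrix.cons_val_zero, Matrix.cons_val, locW] at h0 h1 h2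
      simp only [Set.mem_prod, Set.mem_Icc, Set.mem_Iic]
      have : (0 : ℤ) ≤ j := Int.natCast_nonneg _
      refine ⟨⟨by linarith, by linarith⟩, by omega⟩
    exact ((Set.finite_Icc _ _).prod (Set.finite_Iic _)).subset hsub

end loc

end

end Q2.WA
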