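import Pool.Agent.Q2.WA.WeylA

/-!
# The first Weyl algebra, tensor products
-/

namespace Q2.WA

open Submodule FreeAlgebra

noncomputable section

variable (k : Type*) [Field k]

section w1

/-- the generator `s` -/
def ws : Weyl k 1 := gen (WeylRel k 1) (.s 0)

/-- the generator `∂` -/
def wd : Weyl k 1 := gen (WeylRel k 1) (.d 0)

lemma wd_ws : wd k * ws k = ws k * wd k + 1 := by
  have := RingQuot.mkAlgHom_rel k (WeylRel.ds (k := k) (n := 1) 0 0)
  simpa [gen, wd, ws] using this

lemma wd_pow (a : ℕ) : wd k * ws k ^ a = ws k ^ a * wd k + (a : k) • ws k ^ (a - 1) := by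
  induction a with
  | zero => simp
  | succ n ih =>
    rw [pow_succ, ← mul_assoc, ih, add_mul, mul_assoc, wd_ws, mul_add, mul_one, smul_mul_assoc,
      mul_assoc, add_assoc, Nat.add_sub_cancel]
    congr 1
    rcases n with _ | n
    · simp
    · rw [Nat.add_sub_cancel, ← pow_succ]
      push_cast
      module

/-- the operators of left multiplication by the generators on normally ordered monomials -/
def wOp : WeylGen 1 → Module.End k ((ℕ × ℕ) →₀ k)
  | .s _ => Finsupp.linearCombination k (fun e => Finsupp.single (e.1 + 1, e.2) 1)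
  | .d _ => Finsupp.linearCombination k (fun e => Finsupp.single (e.1, e.2 + 1) 1 +
      (e.1 : k) • Finsupp.single (e.1 - 1, e.2) 1)

lemma wOp_s (i : Fin 1) (e : ℕ × ℕ) :
    wOp k (.s i) (Finsupp.single e 1) = Finsupp.single (e.1 + 1, e.2) 1 := by
  rw [wOp, Finsupp.linearCombination_single, one_smul]

lemma wOp_d (i : Fin 1) (e : ℕ × ℕ) :
    wOp k (.d i) (Finsupp.single e 1) = Finsupp.single (e.1, e.2 + 1) 1 +
      (e.1 : k) • Finsupp.single (e.1 - 1, e.2) 1 := by
  rw [wOp, Finsupp.linearCombination_single, one_smul]

/-- the left regular representation -/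
def wRep : Weyl k 1 →ₐ[k] Module.End k ((ℕ × ℕ) →₀ k) :=
  RingQuot.liftAlgHom k ⟨FreeAlgebra.lift k (wOp k), by
    intro x y h
    cases h with
    | ss i j => rw [Subsingleton.elim i j]
    | dd i j => rw [Subsingleton.elim i j]
    | ds i j =>
      rw [map_mul, map_add, map_mul, FreeAlgebra.lift_ι_apply, FreeAlgebra.lift_ι_apply,
        if_pos (Subsingleton.elim i j), map_one]
      apply end_ext
      intro e
      rw [Module.End.mul_apply, wOp_s, wOp_d, LinearMap.add_apply, Module.End.mul_apply,
        wOp_d, map_add, map_smul, wOp_s, wOp_s, Module.End.one_apply]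
      rcases e with ⟨_ | a, j⟩
      · simp
      · simp only [Nat.add_sub_cancel]
        push_cast
        module⟩

lemma wRep_gen (x : WeylGen 1) : wRep k (gen (WeylRel k 1) x) = wOp k x := by
  rw [wRep, gen, RingQuot.liftAlgHom_mkAlgHom_apply, FreeAlgebra.lift_ι_apply]

/-- normally ordered monomials -/
def wN : ((ℕ × ℕ) →₀ k) →ₗ[k] Weyl k 1 :=
  Finsupp.linearCombination k (fun e => ws k ^ e.1 * wd k ^ e.2)

lemma wN_single (e : ℕ × ℕ) : wN k (Finsupp.single e 1) = ws k ^ e.1 * wd k ^ e.2 := by
  rw [wN, Finsupp.linearCombination_single, one_smul]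

lemma wN_gen (x : WeylGen 1) (v : (ℕ × ℕ) →₀ k) :
    wN k (wRep k (gen (WeylRel k 1) x) v) = gen (WeylRel k 1) x * wN k v := by
  rw [wRep_gen]
  have : (wN k).comp (wOp k x) = (LinearMap.mulLeft k (gen (WeylRel k 1) x)).comp (wN k) := by
    apply end_ext
    intro e
    rw [LinearMap.comp_apply, LinearMap.comp_apply, LinearMap.mulLeft_apply, wN_single]
    cases x with
    | s i =>
      have hi : gen (WeylRel k 1) (.s i) = ws k := by rw [ws, Subsingleton.elim i 0]
      rw [wOp_s, wN_single, pow_succ', mul_assoc, hi]
    | d i =>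
      have hi : gen (WeylRel k 1) (.d i) = wd k := by rw [wd, Subsingleton.elim i 0]
      rw [wOp_d, map_add, map_smul, wN_single, wN_single, hi, ← mul_assoc (wd k), wd_pow, add_mul,
        pow_succ', smul_mul_assoc, mul_assoc]
  exact congrArg (fun f => f v) this

lemma wRep_ws (a : ℕ) (e : ℕ × ℕ) :
    wRep k (ws k ^ a) (Finsupp.single e 1) = Finsupp.single (e.1 + a, e.2) 1 := by
  induction a generalizing e with
  | zero => simp
  | succ n ih =>
    rw [pow_succ, map_mul, Module.End.mul_apply]
    have : wRep k (ws k) = wOp k (.s 0) := wRep_gen k (.s 0)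
    rw [this, wOp_s, ih]
    congr 2
    simp only
    omega

lemma wRep_wd (j : ℕ) :
    wRep k (wd k ^ j) (Finsupp.single (0, 0) 1) = Finsupp.single (0, j) 1 := by
  induction j with
  | zero => simp
  | succ n ih =>
    rw [pow_succ', map_mul, Module.End.mul_apply, ih]
    have : wRep k (wd k) = wOp k (.d 0) := wRep_gen k (.d 0)
    rw [this, wOp_d]
    simp

/-- the symbol map -/
def wEquiv : Weyl k 1 ≃ₗ[k] ((ℕ × ℕ) →₀ k) :=
  { toFun := fun P => wRep k P (Finsupp.single (0, 0) 1)
    map_add' := by intro P Q; rw [map_add, LinearMap.add_apply]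
    map_smul' := by intro c P; rw [map_smul, LinearMap.smul_apply, RingHom.id_apply]
    invFun := wN k
    left_inv := by
      intro P
      rw [intertwine (WeylRel k 1) (wRep k) (wN k) (wN_gen k), wN_single]
      simp
    right_inv := by
      intro v
      have : ((LinearMap.applyₗ (Finsupp.single ((0 : ℕ), (0 : ℕ)) (1 : k))).comp
          ((wRep k).toLinearMap)).comp (wN k) = LinearMap.id := by
        apply end_ext
        intro e
        simp only [LinearMap.comp_apply, LinearMap.applyₗ_apply_apply, AlgHom.toLinearMap_apply,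
          LinearMap.id_apply]
        rw [wN_single, map_mul, Module.End.mul_apply, wRep_wd, wRep_ws]
        simp
      exact congrArg (fun f => f v) this }

/-- the basis `s^a ∂^j` -/
def wB : Module.Basis (ℕ × ℕ) k (Weyl k 1) := Module.Basis.ofRepr (wEquiv k)

lemma wB_apply (e : ℕ × ℕ) : wB k e = ws k ^ e.1 * wd k ^ e.2 := by
  rw [wB, Module.Basis.coe_ofRepr]
  exact wN_single k e

lemma ws_wB (a : ℕ) (e : ℕ × ℕ) : ws k ^ a * wB k e = wB k (a + e.1, e.2) := by
  rw [wB_apply, wB_apply, ← mul_assoc, ← pow_add]

lemma wd_wB (e : ℕ × ℕ) :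
    wd k * wB k e = wB k (e.1, e.2 + 1) + (e.1 : k) • wB k (e.1 - 1, e.2) := by
  rw [wB_apply, wB_apply, wB_apply, ← mul_assoc, wd_pow, add_mul, pow_succ', mul_assoc,
    smul_mul_assoc]

/-- the weight `a + j` -/
def wW (e : ℕ × ℕ) : ℤ := e.1 + e.2

lemma wd_mul_LE {c : ℤ} {x : Weyl k 1} (hx : x ∈ LE (wB k) wW c) :
    wd k * x ∈ LE (wB k) wW (c + 1) := by
  refine mul_LE (fun e => ?_) hx
  rw [wd_wB]
  refine add_mem (basis_mem_LE ?_) (smul_mem _ _ (basis_mem_LE ?_))
  · simp only [wW]
    push_cast
    linarith
  · simp only [wW]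
    omega

lemma ws_mul_LE {c : ℤ} (a : ℕ) {x : Weyl k 1} (hx : x ∈ LE (wB k) wW c) :
    ws k ^ a * x ∈ LE (wB k) wW (c + a) := by
  refine mul_LE (fun e => ?_) hx
  rw [ws_wB]
  refine basis_mem_LE ?_
  simp only [wW]
  push_cast
  linarith

lemma wB_isW : IsW (wB k) wW where
  add := by
    intro e f
    simp only [wW, Prod.fst_add, Prod.snd_add]
    push_cast
    ring
  mul := by
    have key : ∀ (j : ℕ) (f : ℕ × ℕ), wd k ^ j * wB k f - wB k (f.1, j + f.2) ∈
        LE (wB k) wW (j + wW f - 1) := by
      intro j
      induction j with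
      | zero => intro f; simp
      | succ n ih =>
        intro f
        have h1 := wd_mul_LE k (ih f)
        have h2 : wd k ^ (n + 1) * wB k f - wB k (f.1, n + 1 + f.2) =
            wd k * (wd k ^ n * wB k f - wB k (f.1, n + f.2)) +
              (f.1 : k) • wB k (f.1 - 1, n + f.2) := by
          rw [mul_sub, wd_wB, pow_succ', mul_assoc]
          have : n + 1 + f.2 = n + f.2 + 1 := by omega
          rw [this]
          abel
        rw [h2]
        refine add_mem (LE_mono ?_ h1) ?_
        · push_cast
          linarith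
        · rcases Nat.eq_zero_or_pos f.1 with h | h
          · rw [h]
            simp
          · refine smul_mem _ _ (basis_mem_LE ?_)
            simp only [wW]
            push_cast
            omega
    intro e f
    have h1 := ws_mul_LE k e.1 (key e.2 f)
    have h2 : wB k e * wB k f - wB k (e + f) =
        ws k ^ e.1 * (wd k ^ e.2 * wB k f - wB k (f.1, e.2 + f.2)) := by
      rw [mul_sub, ws_wB, ← mul_assoc, ← wB_apply]
      rfl
    rw [h2]
    refine LE_mono ?_ h1
    simp only [wW]
    linarith

end w1

/-! ### tensor products -/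

section tensor

open TensorProduct

variable {k}
variable {A B : Type*} [Ring A] [Algebra k A] [Ring B] [Algebra k B]
  {E F : Type*} [AddCommMonoid E] [AddCommMonoid F]
  {b : Module.Basis E k A} {c : Module.Basis F k B} {l : E → ℤ} {m : F → ℤ}

/-- the sum of the weights -/
def tW (l : E → ℤ) (m : F → ℤ) (e : E × F) : ℤ := l e.1 + m e.2

lemma tmul_mem_LE {p q : ℤ} {x : A} {y : B} (hx : x ∈ LE b l p) (hy : y ∈ LE c m q) :
    x ⊗ₜ[k] y ∈ LE (b.tensorProduct c) (tW l m) (p + q) := by
  rw [LE] at hx
  induction hx using Submodule.span_induction with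
  | mem x hx =>
    obtain ⟨e, he, rfl⟩ := hx
    simp only [Set.mem_ofPred_eq] at he
    rw [LE] at hy
    induction hy using Submodule.span_induction with
    | mem y hy =>
      obtain ⟨f, hf, rfl⟩ := hy
      simp only [Set.mem_ofPred_eq] at hf
      have := basis_mem_LE (b := b.tensorProduct c) (l := tW l m) (c := p + q) (e := (e, f))
        (by simp only [tW]; omega)
      rwa [Module.Basis.tensorProduct_apply] at this
    | zero => simp
    | add x y _ _ hx hy => rw [tmul_add]; exact add_mem hx hy
    | smul r x _ hx => rw [tmul_smul]; exact smul_mem _ _ hx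
  | zero => simp
  | add x y _ _ hx hy => rw [add_tmul]; exact add_mem hx hy
  | smul r x _ hx => rw [← smul_tmul']; exact smul_mem _ _ hx

lemma IsW.tensor (hb : IsW b l) (hc : IsW c m) : IsW (b.tensorProduct c) (tW l m) where
  add := by
    intro e f
    simp only [tW, Prod.fst_add, Prod.snd_add, hb.add, hc.add]
    ring
  mul := by
    rintro ⟨e, e'⟩ ⟨f, f'⟩
    rw [Prod.mk_add_mk, Module.Basis.tensorProduct_apply, Module.Basis.tensorProduct_apply,
      Module.Basis.tensorProduct_apply, Algebra.TensorProduct.tmul_mul_tmul]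
    have h : (b e * b f) ⊗ₜ[k] (c e' * c f') - b (e + f) ⊗ₜ[k] c (e' + f') =
        (b e * b f - b (e + f)) ⊗ₜ[k] (c e' * c f' - c (e' + f')) +
        (b e * b f - b (e + f)) ⊗ₜ[k] c (e' + f') +
        b (e + f) ⊗ₜ[k] (c e' * c f' - c (e' + f')) := by
      simp only [sub_tmul, tmul_sub]
      abel
    rw [h]
    have h1 := hb.mul e f
    have h2 := hc.mul e' f'
    have h3 : b (e + f) ∈ LE b l (l e + l f) := basis_mem_LE (hb.add e f).le
    have h4 : c (e' + f') ∈ LE c m (m e' + m f') := basis_mem_LE (hc.add e' f').le
    refine add_mem (add_mem (LE_mono ?_ (tmul_mem_LE h1 h2)) (LE_mono ?_ (tmul_mem_LE h1 h4)))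
      (LE_mono ?_ (tmul_mem_LE h3 h2)) <;> simp only [tW] <;> linarith

/-- tensoring with the first Weyl algebra -/
def Good.tensor (G : Good k A) : Good k (A ⊗[k] Weyl k 1) where
  E := G.E × (ℕ × ℕ)
  b := G.b.tensorProduct (wB k)
  l := fun i => tW (G.l i) wW
  isW := fun i => (G.isW i).tensor (wB_isW k)
  pos := by
    intro e
    have := G.pos e.1
    simp only [tW, wW]
    positivity
  pm := by
    intro e
    have := G.pm e.1
    simp only [tW, wW]
    omega
  fin := by
    intro c
    have h1 : {e | ∀ i, G.l i e ≤ c i}.Finite := G.fin c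
    have h2 : ((Set.Iic (c 0).toNat) ×ˢ (Set.Iic (c 0).toNat) : Set (ℕ × ℕ)).Finite :=
      (Set.finite_Iic _).prod (Set.finite_Iic _)
    refine (h1.prod h2).subset ?_
    rintro ⟨e, p, q⟩ h
    simp only [tW, wW, Set.mem_ofPred_eq] at h
    simp only [Set.mem_prod, Set.mem_ofPred_eq, Set.mem_Iic]
    refine ⟨fun i => ?_, ?_, ?_⟩
    · have := h i
      omega
    · have := h 0
      have := G.pos e
      omega
    · have := h 0
      have := G.pos e
      omega

/-- transport along an isomorphism -/
def Good.map (G : Good k A) (e : A ≃ₐ[k] B) : Good k B where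
  E := G.E
  b := G.b.map e.toLinearEquiv
  l := G.l
  isW := fun i =>
    { add := (G.isW i).add
      mul := by
        intro x y
        have h := (G.isW i).mul x y
        simp only [Module.Basis.map_apply, AlgEquiv.toLinearEquiv_apply]
        rw [← map_mul, ← map_sub, mem_LE]
        rw [mem_LE] at h
        intro z hz
        apply h z
        simpa using hz }
  pos := G.pos
  pm := G.pm
  fin := G.fin

end tensor

/-! ### the Weyl algebras -/

section weyl

open TensorProduct

/-- `A_0 = k` -/
def weylZero : Weyl k 0 ≃ₐ[k] k :=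
  AlgEquiv.ofAlgHom
    (RingQuot.liftAlgHom k ⟨FreeAlgebra.lift k (fun x : WeylGen 0 => by
        cases x with
        | s i => exact i.elim0
        | d i => exact i.elim0), by
      intro x y h
      cases h with
      | ss i j => exact i.elim0
      | dd i j => exact i.elim0
      | ds i j => exact i.elim0⟩)
    (Algebra.ofId k _)
    (by ext)
    (by
      apply RingQuot.ringQuot_ext'
      apply FreeAlgebra.hom_ext
      funext x
      cases x with
      | s i => exact i.elim0
      | d i => exact i.elim0)

lemma gen_ss {n : ℕ} (i j : Fin n) : gen (WeylRel k n) (.s i) * gen (WeylRel k n) (.s j) =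
    gen (WeylRel k n) (.s j) * gen (WeylRel k n) (.s i) := by
  have := RingQuot.mkAlgHom_rel k (WeylRel.ss (k := k) (n := n) i j)
  simpa [gen] using this

lemma gen_dd {n : ℕ} (i j : Fin n) : gen (WeylRel k n) (.d i) * gen (WeylRel k n) (.d j) =
    gen (WeylRel k n) (.d j) * gen (WeylRel k n) (.d i) := by
  have := RingQuot.mkAlgHom_rel k (WeylRel.dd (k := k) (n := n) i j)
  simpa [gen] using this

lemma gen_ds {n : ℕ} (i j : Fin n) : gen (WeylRel k n) (.d i) * gen (WeylRel k n) (.s j) =
    gen (WeylRel k n) (.s j) * gen (WeylRel k n) (.d i) + if i = j then 1 else 0 := by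
  have := RingQuot.mkAlgHom_rel k (WeylRel.ds (k := k) (n := n) i j)
  rw [map_mul, map_add, map_mul] at this
  simp only [gen]
  rw [this]
  split_ifs <;> simp

end weyl

section lift

variable {k} {n : ℕ} {A : Type*} [Ring A] [Algebra k A]

/-- homomorphisms from the Weyl algebra -/
def weylLift (S D : Fin n → A) (hss : ∀ i j, S i * S j = S j * S i)
    (hdd : ∀ i j, D i * D j = D j * D i)
    (hds : ∀ i j, D i * S j = S j * D i + if i = j then 1 else 0) : Weyl k n →ₐ[k] A :=
  RingQuot.liftAlgHom k ⟨FreeAlgebra.lift k (fun x : WeylGen n => match x with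
    | .s i => S i
    | .d i => D i), by
      intro x y h
      cases h with
      | ss i j =>
        rw [map_mul, map_mul, FreeAlgebra.lift_ι_apply, FreeAlgebra.lift_ι_apply]
        exact hss i j
      | dd i j =>
        rw [map_mul, map_mul, FreeAlgebra.lift_ι_apply, FreeAlgebra.lift_ι_apply]
        exact hdd i j
      | ds i j =>
        rw [map_mul, map_add, map_mul, FreeAlgebra.lift_ι_apply, FreeAlgebra.lift_ι_apply]
        have := hds i j
        simp only
        rw [this]
        split_ifs <;> simp⟩

lemma weylLift_s (S D : Fin n → A) (hss hdd hds) (i : Fin n) :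
    weylLift (k := k) S D hss hdd hds (gen (WeylRel k n) (.s i)) = S i := by
  rw [weylLift, gen, RingQuot.liftAlgHom_mkAlgHom_apply, FreeAlgebra.lift_ι_apply]

lemma weylLift_d (S D : Fin n → A) (hss hdd hds) (i : Fin n) :
    weylLift (k := k) S D hss hdd hds (gen (WeylRel k n) (.d i)) = D i := by
  rw [weylLift, gen, RingQuot.liftAlgHom_mkAlgHom_apply, FreeAlgebra.lift_ι_apply]

omit [Ring A] [Algebra k A] in
lemma gen_hom_ext {X : Type*} {r : FreeAlgebra k X → FreeAlgebra k X → Prop} [Semiring A]
    [Algebra k A] {f g : RingQuot r →ₐ[k] A} (h : ∀ x, f (gen r x) = g (gen r x)) : f = g := by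
  apply RingQuot.ringQuot_ext'
  apply FreeAlgebra.hom_ext
  funext x
  exact h x

lemma commute_of_gen {X Y : Type*} {r : FreeAlgebra k X → FreeAlgebra k X → Prop}
    {r' : FreeAlgebra k Y → FreeAlgebra k Y → Prop}
    (f : RingQuot r →ₐ[k] A) (g : RingQuot r' →ₐ[k] A)
    (h : ∀ x y, Commute (f (gen r x)) (g (gen r' y))) (x : RingQuot r) (y : RingQuot r') :
    Commute (f x) (g y) := by
  have h1 : ∀ x y, Commute (f x) (g (gen r' y)) := by
    intro x y
    have hS : (Subalgebra.centralizer k {g (gen r' y)}).comap f = ⊤ :=
      gen_induction r (fun x => by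
        rw [Subalgebra.mem_comap, Subalgebra.mem_centralizer_iff]
        rintro _ rfl
        exact (h x y).symm)
    have : x ∈ (Subalgebra.centralizer k {g (gen r' y)}).comap f := by rw [hS]; trivial
    rw [Subalgebra.mem_comap, Subalgebra.mem_centralizer_iff] at this
    exact (this _ rfl).symm
  have hS : (Subalgebra.centralizer k {f x}).comap g = ⊤ :=
    gen_induction r' (fun y => by
      rw [Subalgebra.mem_comap, Subalgebra.mem_centralizer_iff]
      rintro _ rfl
      exact h1 x y)
  have : y ∈ (Subalgebra.centralizer k {f x}).comap g := by rw [hS]; trivial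
  rw [Subalgebra.mem_comap, Subalgebra.mem_centralizer_iff] at this
  exact this _ rfl

end lift

section weyl2

open TensorProduct

variable (n : ℕ)

/-- `A_{n+1} → A_n ⊗ A_1` -/
def toTensor : Weyl k (n + 1) →ₐ[k] Weyl k n ⊗[k] Weyl k 1 :=
  weylLift
    (fun i => Fin.lastCases (motive := fun _ => Weyl k n ⊗[k] Weyl k 1)
      ((1 : Weyl k n) ⊗ₜ[k] ws k) (fun i => gen (WeylRel k n) (.s i) ⊗ₜ[k] (1 : Weyl k 1)) i)
    (fun i => Fin.lastCases (motive := fun _ => Weyl k n ⊗[k] Weyl k 1)
      ((1 : Weyl k n) ⊗ₜ[k] wd k) (fun i => gen (WeylRel k n) (.d i) ⊗ₜ[k] (1 : Weyl k 1)) i)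
    (by
      intro i j
      induction i using Fin.lastCases with
      | last =>
        induction j using Fin.lastCases with
        | last => rfl
        | cast j => simp [Algebra.TensorProduct.tmul_mul_tmul]
      | cast i =>
        induction j using Fin.lastCases with
        | last => simp [Algebra.TensorProduct.tmul_mul_tmul]
        | cast j =>
          simp only [Fin.lastCases_castSucc, Algebra.TensorProduct.tmul_mul_tmul]
          rw [gen_ss])
    (by
      intro i j
      induction i using Fin.lastCases with
      | last =>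
        induction j using Fin.lastCases with
        | last => rfl
        | cast j => simp [Algebra.TensorProduct.tmul_mul_tmul]
      | cast i =>
        induction j using Fin.lastCases with
        | last => simp [Algebra.TensorProduct.tmul_mul_tmul]
        | cast j =>
          simp only [Fin.lastCases_castSucc, Algebra.TensorProduct.tmul_mul_tmul]
          rw [gen_dd])
    (by
      intro i j
      induction i using Fin.lastCases with
      | last =>
        induction j using Fin.lastCases with
        | last =>
          simp only [Fin.lastCases_last, Algebra.TensorProduct.tmul_mul_tmul, if_true, mul_one]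
          rw [wd_ws, tmul_add, Algebra.TensorProduct.one_def]
        | cast j =>
          simp [Algebra.TensorProduct.tmul_mul_tmul, (Fin.castSucc_lt_last j).ne']
      | cast i =>
        induction j using Fin.lastCases with
        | last =>
          simp [Algebra.TensorProduct.tmul_mul_tmul, (Fin.castSucc_lt_last i).ne]
        | cast j =>
          simp only [Fin.lastCases_castSucc, Algebra.TensorProduct.tmul_mul_tmul, mul_one,
            Fin.castSucc_inj]
          rw [gen_ds, add_tmul]
          split_ifs
          · rw [Algebra.TensorProduct.one_def]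
          · rw [zero_tmul])

/-- `A_n → A_{n+1}` -/
def inclN : Weyl k n →ₐ[k] Weyl k (n + 1) :=
  weylLift (fun i => gen (WeylRel k (n + 1)) (.s i.castSucc))
    (fun i => gen (WeylRel k (n + 1)) (.d i.castSucc))
    (fun i j => gen_ss k _ _) (fun i j => gen_dd k _ _)
    (fun i j => by rw [gen_ds]; simp only [Fin.castSucc_inj])

/-- `A_1 → A_{n+1}` -/
def inclOne : Weyl k 1 →ₐ[k] Weyl k (n + 1) :=
  weylLift (fun _ => gen (WeylRel k (n + 1)) (.s (Fin.last n)))
    (fun _ => gen (WeylRel k (n + 1)) (.d (Fin.last n)))
    (fun i j => rfl) (fun i j => rfl)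
    (fun i j => by rw [gen_ds, if_pos rfl, if_pos (Subsingleton.elim i j)])

/-- `A_n ⊗ A_1 → A_{n+1}` -/
def ofTensor : Weyl k n ⊗[k] Weyl k 1 →ₐ[k] Weyl k (n + 1) :=
  Algebra.TensorProduct.lift (inclN k n) (inclOne k n) (by
    apply commute_of_gen
    intro x y
    cases x with
    | s i =>
      cases y with
      | s j =>
        rw [inclN, inclOne, weylLift_s, weylLift_s]
        exact gen_ss k _ _
      | d j =>
        rw [inclN, inclOne, weylLift_s, weylLift_d]
        have := gen_ds k (Fin.last n) i.castSucc
        rw [if_neg (Fin.castSucc_lt_last i).ne', add_zero] at this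
        exact this.symm
    | d i =>
      cases y with
      | s j =>
        rw [inclN, inclOne, weylLift_s, weylLift_d]
        have := gen_ds k i.castSucc (Fin.last n)
        rw [if_neg (Fin.castSucc_lt_last i).ne, add_zero] at this
        exact this
      | d j =>
        rw [inclN, inclOne, weylLift_d, weylLift_d]
        exact gen_dd k _ _)

lemma toTensor_s (i : Fin (n + 1)) : toTensor k n (gen (WeylRel k (n + 1)) (.s i)) =
    Fin.lastCases (motive := fun _ => Weyl k n ⊗[k] Weyl k 1)
      ((1 : Weyl k n) ⊗ₜ[k] ws k) (fun i => gen (WeylRel k n) (.s i) ⊗ₜ[k] (1 : Weyl k 1)) i := by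
  rw [toTensor, weylLift_s]

lemma toTensor_d (i : Fin (n + 1)) : toTensor k n (gen (WeylRel k (n + 1)) (.d i)) =
    Fin.lastCases (motive := fun _ => Weyl k n ⊗[k] Weyl k 1)
      ((1 : Weyl k n) ⊗ₜ[k] wd k) (fun i => gen (WeylRel k n) (.d i) ⊗ₜ[k] (1 : Weyl k 1)) i := by
  rw [toTensor, weylLift_d]

/-- `A_{n+1} = A_n ⊗ A_1` -/
def weylSucc : Weyl k n ⊗[k] Weyl k 1 ≃ₐ[k] Weyl k (n + 1) :=
  AlgEquiv.ofAlgHom (ofTensor k n) (toTensor k n)
    (by
      apply gen_hom_ext
      intro x
      cases x with
      | s i =>
        rw [AlgHom.comp_apply, toTensor_s]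
        induction i using Fin.lastCases with
        | last =>
          rw [Fin.lastCases_last, ofTensor, Algebra.TensorProduct.lift_tmul, map_one, one_mul,
            inclOne, ws, weylLift_s]
          rfl
        | cast i =>
          rw [Fin.lastCases_castSucc, ofTensor, Algebra.TensorProduct.lift_tmul, map_one, mul_one,
            inclN, weylLift_s]
          rfl
      | d i =>
        rw [AlgHom.comp_apply, toTensor_d]
        induction i using Fin.lastCases with
        | last =>
          rw [Fin.lastCases_last, ofTensor, Algebra.TensorProduct.lift_tmul, map_one, one_mul,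
            inclOne, wd, weylLift_d]
          rfl
        | cast i =>
          rw [Fin.lastCases_castSucc, ofTensor, Algebra.TensorProduct.lift_tmul, map_one, mul_one,
            inclN, weylLift_d]
          rfl)
    (by
      apply Algebra.TensorProduct.ext
      · apply gen_hom_ext
        intro x
        cases x with
        | s i =>
          simp only [AlgHom.comp_apply, Algebra.TensorProduct.includeLeft_apply]
          rw [ofTensor, Algebra.TensorProduct.lift_tmul, map_one, mul_one, inclN, weylLift_s,
            toTensor_s, Fin.lastCases_castSucc]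
          rfl
        | d i =>
          simp only [AlgHom.comp_apply, Algebra.TensorProduct.includeLeft_apply]
          rw [ofTensor, Algebra.TensorProduct.lift_tmul, map_one, mul_one, inclN, weylLift_d,
            toTensor_d, Fin.lastCases_castSucc]
          rfl
      · apply gen_hom_ext
        intro x
        cases x with
        | s i =>
          simp only [AlgHom.comp_apply, AlgHom.restrictScalars_apply,
            Algebra.TensorProduct.includeRight_apply]
          rw [ofTensor, Algebra.TensorProduct.lift_tmul, map_one, one_mul, inclOne, weylLift_s,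
            toTensor_s, Fin.lastCases_last, ws, Subsingleton.elim i 0]
          rfl
        | d i =>
          simp only [AlgHom.comp_apply, AlgHom.restrictScalars_apply,
            Algebra.TensorProduct.includeRight_apply]
          rw [ofTensor, Algebra.TensorProduct.lift_tmul, map_one, one_mul, inclOne, weylLift_d,
            toTensor_d, Fin.lastCases_last, wd, Subsingleton.elim i 0]
          rfl)

/-- the algebra `k[t, t⁻¹, ∂] ⊗ A_n` with its three weights -/
def locWeylGood : ∀ n : ℕ, Good k (LocWeyl k ⊗[k] Weyl k n)
  | 0 => (locGood k).map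
      ((Algebra.TensorProduct.rid k k (LocWeyl k)).symm.trans
        (Algebra.TensorProduct.congr AlgEquiv.refl (weylZero k).symm))
  | n + 1 => ((locWeylGood n).tensor).map
      ((Algebra.TensorProduct.assoc k k k (LocWeyl k) (Weyl k n) (Weyl k 1)).trans
        (Algebra.TensorProduct.congr AlgEquiv.refl (weylSucc k n)))

end weyl2

end

end Q2.WA
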